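import Pool.Agent.Lib.MP_e029a2_pr.CB.Dep
import Pool.Agent.Lib.MP_e029a2_pr.CO.Prod

/-!
# Estimates for the vertical movements
-/

set_option autoImplicit false

namespace FDr.CB

open MeasureTheory ProbabilityTheory
open scoped ENNReal

/-- independent events -/
theorem prod_dep' {ι β κ : Type*} [MeasurableSpace β] [Nonempty β]
    (μ : Measure β) [IsProbabilityMeasure μ] (F : Finset κ) (T : κ → Set ι)
    (hd : ∀ m ∈ F, ∀ m' ∈ F, m ≠ m' → Disjoint (T m) (T m')) (E : κ → (ι → β) → Prop)
    (hm : ∀ m ∈ F, MeasurableSet {c | E m c}) (hE : ∀ m ∈ F, Dep (T m) (E m)) :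
    Measure.infinitePi (fun _ : ι => μ) {c | ∀ m ∈ F, E m c} = ∏ m ∈ F, Measure.infinitePi (fun _ : ι => μ) {c | E m c} := by
  classical
  induction F using Finset.induction_on with
  | empty =>
    have h1 : {c : ι → β | ∀ m ∈ (∅ : Finset κ), E m c} = Set.univ := by
      refine Set.eq_univ_of_forall fun c m hm => absurd hm (Finset.notMem_empty m)
    rw [h1, measure_univ, Finset.prod_empty]
  | insert a F ha ih =>
    have h1 : {c : ι → β | ∀ m ∈ insert a F, E m c} = {c | E a c ∧ ∀ m ∈ F, E m c} := by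
      ext c
      simp only [Set.mem_ofPred_eq, Finset.mem_insert, forall_eq_or_imp]
    have hmF : MeasurableSet {c : ι → β | ∀ m ∈ F, E m c} := by
      have h2 : {c : ι → β | ∀ m ∈ F, E m c} = ⋂ m ∈ F, {c | E m c} := by
        ext c
        simp only [Set.mem_iInter]
        rfl
      rw [h2]
      exact Finset.measurableSet_biInter F fun m hm' => hm m (Finset.mem_insert_of_mem hm')
    have h2 : Dep (⋃ m ∈ F, T m) (fun c : ι → β => ∀ m ∈ F, E m c) := by
      intro c c' hc
      refine propext (forall₂_congr fun m hm => ?_)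
      have h3 : E m c = E m c' := hE m (Finset.mem_insert_of_mem hm) c c' fun q hq => hc q (Set.mem_biUnion hm hq)
      rw [h3]
    have h4 : Disjoint (T a) (⋃ m ∈ F, T m) := by
      rw [Set.disjoint_iUnion₂_right]
      intro m hm
      refine hd a (Finset.mem_insert_self a F) m (Finset.mem_insert_of_mem hm) ?_
      rintro rfl
      exact ha hm
    have ha' := hE a (Finset.mem_insert_self a F)
    rw [h1, prob_and_dep μ h4 (hm a (Finset.mem_insert_self a F)) hmF ha' h2,
      ih (fun m hm m' hm' => hd m (Finset.mem_insert_of_mem hm) m' (Finset.mem_insert_of_mem hm'))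
        (fun m hm' => hm m (Finset.mem_insert_of_mem hm'))
        (fun m hm => hE m (Finset.mem_insert_of_mem hm)), Finset.prod_insert ha]

/-! ### The probability to reach a height -/

/-- reach the height `m` after at most `N` vertical steps -/
def RchN (x : Site 1) : ℕ → ℕ → ℤ → Conf 1 → Prop
  | 0, _, m => fun _ => m = 0
  | N + 1, j, m => fun c => m = 0 ∨ ∃ b : Bool, c (x, j) = ([], (0, b)) ∧ RchN x N (j + 1) (m - sg b) c

theorem rchN_rch {x : Site 1} {N j : ℕ} {m : ℤ} {c : Conf 1} (h : RchN x N j m c) : Rch c x j m := by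
  induction N generalizing j m with
  | zero =>
    have h1 : m = 0 := h
    refine ⟨0, fun i hi => absurd hi (Nat.not_lt_zero i), ?_⟩
    rw [h1, Finset.sum_range_zero]
  | succ N ih =>
    rcases h with h | ⟨b, h1, h2⟩
    · refine ⟨0, fun i hi => absurd hi (Nat.not_lt_zero i), ?_⟩
      rw [h, Finset.sum_range_zero]
    · obtain ⟨n, h3, h4⟩ := ih h2
      refine ⟨n + 1, fun i hi => ?_, ?_⟩
      · rcases i with _ | i
        · rw [add_zero, h1]
        · have h5 := h3 i (by omega)
          rwa [show j + 1 + i = j + (i + 1) by ring] at h5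
      · rw [Finset.sum_range_succ']
        have h5 : ∀ i ∈ Finset.range n, sg (c (x, j + (i + 1))).2.2 = sg (c (x, j + 1 + i)).2.2 := fun i _ => by
          rw [show j + (i + 1) = j + 1 + i by ring]
        rw [Finset.sum_congr rfl h5, h4, add_zero, h1]
        ring

theorem rchN_dep (x : Site 1) (N j : ℕ) (m : ℤ) : Dep {q : Site 1 × ℕ | q.1 = x ∧ j ≤ q.2} (RchN x N j m) := by
  induction N generalizing j m with
  | zero => exact fun _ _ _ => rfl
  | succ N ih =>
    intro c c' hc
    show (m = 0 ∨ ∃ b : Bool, c (x, j) = ([], (0, b)) ∧ RchN x N (j + 1) (m - sg b) c) =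
      (m = 0 ∨ ∃ b : Bool, c' (x, j) = ([], (0, b)) ∧ RchN x N (j + 1) (m - sg b) c')
    have h1 : c (x, j) = c' (x, j) := hc (x, j) ⟨rfl, le_rfl⟩
    have h2 : ∀ b, RchN x N (j + 1) (m - sg b) c = RchN x N (j + 1) (m - sg b) c' := fun b =>
      ih (j + 1) (m - sg b) c c' fun q hq => hc q ⟨hq.1, le_trans (Nat.le_succ j) hq.2⟩
    simp only [h1, h2]

theorem rchN_meas (x : Site 1) (N j : ℕ) (m : ℤ) : MeasurableSet {c : Conf 1 | RchN x N j m c} := by
  induction N generalizing j m with
  | zero => exact MeasurableSet.const _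
  | succ N ih =>
    refine measurableSet_setOfPred.2 ?_
    show Measurable fun c : Conf 1 => m = 0 ∨ ∃ b : Bool, c (x, j) = ([], (0, b)) ∧ RchN x N (j + 1) (m - sg b) c
    exact measurable_const.or (Measurable.exists fun b => (cell_meas _ _).and (measurableSet_setOfPred.1 (ih _ _)))

theorem run_one (w α : Set.Ioo (0 : ℝ) 1) (l : Run) : runLaw w α {l' | l' = l} = ENNReal.ofReal (runW w α l) := by
  have h2 : {l' : Run | l' = l} = {l} := rfl
  rw [h2, runLaw, Measure.sum_apply _ (measurableSet_singleton _), tsum_eq_single l]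
  · rw [Measure.smul_apply, Measure.dirac_apply_of_mem (Set.mem_singleton _), smul_eq_mul, mul_one]
  · intro l' hl
    rw [Measure.smul_apply, Measure.dirac_apply' _ (measurableSet_singleton _), Set.indicator_of_notMem, smul_zero]
    exact fun h => hl (Set.mem_singleton_iff.1 h)

theorem cell_one (w α : Set.Ioo (0 : ℝ) 1) (q : Site 1 × ℕ) (l : Run) (b : Bool) :
    Q w α 1 {c | c q = (l, (0, b))} = ENNReal.ofReal (runW w α l / 2) := by
  have h4 := CO.run_dir_prob (D := 1) w α q (fun l' => l' = l) (0, b)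
  have h5 : {c : Conf 1 | (c q).1 = l ∧ (c q).2 = (0, b)} = {c : Conf 1 | c q = (l, (0, b))} := by
    ext c
    exact ⟨fun h => Prod.ext h.1 h.2, fun h => Prod.ext_iff.1 h⟩
  rw [h5] at h4
  rw [h4, run_one, ENNReal.ofReal_div_of_pos (by norm_num), ENNReal.ofReal_ofNat, ENNReal.div_eq_inv_mul, mul_comm]
  simp

theorem natAbs_sub_sg {m : ℤ} (hm : m ≠ 0) (y : ℝ) :
    y ^ (m - sg true).natAbs + y ^ (m - sg false).natAbs = y ^ (m.natAbs - 1) + y ^ (m.natAbs + 1) := by
  have e1 : sg true = 1 := rfl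
  have e2 : sg false = -1 := rfl
  rw [e1, e2]
  rcases lt_or_gt_of_ne hm with h | h
  · have h1 : (m - 1).natAbs = m.natAbs + 1 := by omega
    have h2 : (m - -1).natAbs = m.natAbs - 1 := by omega
    rw [h1, h2, add_comm]
  · have h1 : (m - 1).natAbs = m.natAbs - 1 := by omega
    have h2 : (m - -1).natAbs = m.natAbs + 1 := by omega
    rw [h1, h2]

theorem rchN_prob (w α : Set.Ioo (0 : ℝ) 1) {y : ℝ} (hy0 : 0 ≤ y) (hy1 : y ≤ 1) (hy : y ≤ (1 - w) / 2 * (1 + y ^ 2))
    (x : Site 1) (N j : ℕ) (m : ℤ) :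
    ENNReal.ofReal (y ^ m.natAbs - (1 - w) ^ N) ≤ Q w α 1 {c | RchN x N j m c} := by
  have hw0 : 0 ≤ 1 - (w : ℝ) := by linarith [w.2.2]
  have hw1 : 1 - (w : ℝ) ≤ 1 := by linarith [w.2.1]
  induction N generalizing j m with
  | zero =>
    have h1 : y ^ m.natAbs ≤ 1 := pow_le_one₀ hy0 hy1
    rw [pow_zero, ENNReal.ofReal_of_nonpos (by linarith)]
    exact zero_le
  | succ N ih =>
    by_cases hm : m = 0
    · have h1 : {c : Conf 1 | RchN x (N + 1) j m c} = Set.univ := Set.eq_univ_of_forall fun c => Or.inl hm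
      rw [h1, measure_univ]
      refine ENNReal.ofReal_le_one.2 ?_
      have h2 : y ^ m.natAbs ≤ 1 := pow_le_one₀ hy0 hy1
      have h3 : 0 ≤ (1 - (w : ℝ)) ^ (N + 1) := pow_nonneg hw0 _
      linarith
    · -- the two possible first steps
      have hE : ∀ b : Bool, Q w α 1 {c | c (x, j) = ([], (0, b)) ∧ RchN x N (j + 1) (m - sg b) c} =
          ENNReal.ofReal ((1 - w) / 2) * Q w α 1 {c | RchN x N (j + 1) (m - sg b) c} := by
        intro b
        have h1 := prob_and_dep (cellLaw w α 1) (S := {(x, j)}) (T := {q : Site 1 × ℕ | q.1 = x ∧ j + 1 ≤ q.2})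
          (P := fun c : Conf 1 => c (x, j) = ([], (0, b))) (P' := RchN x N (j + 1) (m - sg b)) (by
            rw [Set.disjoint_singleton_left]
            rintro ⟨-, h⟩
            have h' : j + 1 ≤ j := h
            omega) (measurableSet_setOfPred.2 (cell_meas _ _)) (rchN_meas x N (j + 1) (m - sg b)) (fun c c' hc => by
            show (c (x, j) = ([], (0, b))) = (c' (x, j) = ([], (0, b)))
            rw [hc (x, j) rfl]) (rchN_dep x N (j + 1) (m - sg b))
        have h2 := cell_one w α (x, j) [] b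
        have h3 : runW w α [] = 1 - w := by
          rw [runW_eq, List.map_nil, List.prod_nil, mul_one]
        rw [h3] at h2
        unfold Q at h2 ⊢
        rw [h1, h2]
      have hU : {c : Conf 1 | c (x, j) = ([], (0, true)) ∧ RchN x N (j + 1) (m - sg true) c} ∪
          {c | c (x, j) = ([], (0, false)) ∧ RchN x N (j + 1) (m - sg false) c} ⊆ {c | RchN x (N + 1) j m c} := by
        rintro c (h | h)
        · exact Or.inr ⟨true, h⟩
        · exact Or.inr ⟨false, h⟩
      refine le_trans ?_ (measure_mono hU)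
      have hdisj : Disjoint {c : Conf 1 | c (x, j) = ([], (0, true)) ∧ RchN x N (j + 1) (m - sg true) c}
          {c | c (x, j) = ([], (0, false)) ∧ RchN x N (j + 1) (m - sg false) c} := by
        rw [Set.disjoint_left]
        rintro c ⟨h1, -⟩ ⟨h2, -⟩
        have h3 := h1.symm.trans h2
        simp at h3
      have hmeas : MeasurableSet {c : Conf 1 | c (x, j) = ([], (0, false)) ∧ RchN x N (j + 1) (m - sg false) c} :=
        (measurableSet_setOfPred.2 (cell_meas _ _)).inter (rchN_meas x N (j + 1) (m - sg false))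
      rw [measure_union hdisj hmeas, hE, hE, ← mul_add]
      have h1 := ih (j + 1) (m - sg true)
      have h2 := ih (j + 1) (m - sg false)
      obtain ⟨a, ha⟩ : ∃ a : ℕ, m.natAbs = a + 1 := ⟨m.natAbs - 1, by omega⟩
      have h3 := natAbs_sub_sg hm y
      rw [ha, Nat.add_sub_cancel] at h3
      rw [ha]
      calc ENNReal.ofReal (y ^ (a + 1) - (1 - w) ^ (N + 1))
          ≤ ENNReal.ofReal ((1 - w) / 2 * ((y ^ (m - sg true).natAbs - (1 - w) ^ N) +
            (y ^ (m - sg false).natAbs - (1 - w) ^ N))) := by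
            refine ENNReal.ofReal_le_ofReal ?_
            have h4 : y ^ a * y ≤ y ^ a * ((1 - w) / 2 * (1 + y ^ 2)) := mul_le_mul_of_nonneg_left hy (pow_nonneg hy0 a)
            have h5 : (1 - (w : ℝ)) / 2 * ((y ^ (m - sg true).natAbs - (1 - w) ^ N) +
                (y ^ (m - sg false).natAbs - (1 - w) ^ N)) =
                (1 - w) / 2 * (y ^ (m - sg true).natAbs + y ^ (m - sg false).natAbs) - (1 - w) ^ (N + 1) := by ring
            rw [h5, h3]
            have h6 : y ^ a * ((1 - (w : ℝ)) / 2 * (1 + y ^ 2)) = (1 - w) / 2 * (y ^ a + y ^ (a + 1 + 1)) := by ring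
            rw [h6, ← pow_succ] at h4
            linarith
        _ = ENNReal.ofReal ((1 - w) / 2) * ENNReal.ofReal ((y ^ (m - sg true).natAbs - (1 - w) ^ N) +
            (y ^ (m - sg false).natAbs - (1 - w) ^ N)) := ENNReal.ofReal_mul (by linarith)
        _ ≤ ENNReal.ofReal ((1 - w) / 2) * (ENNReal.ofReal (y ^ (m - sg true).natAbs - (1 - w) ^ N) +
            ENNReal.ofReal (y ^ (m - sg false).natAbs - (1 - w) ^ N)) := mul_le_mul_right ENNReal.ofReal_add_le _
        _ ≤ _ := mul_le_mul_right (add_le_add h1 h2) _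

/-- **The probability to reach a height.** -/
theorem rch_prob (w α : Set.Ioo (0 : ℝ) 1) {y : ℝ} (hy0 : 0 ≤ y) (hy1 : y ≤ 1) (hy : y ≤ (1 - w) / 2 * (1 + y ^ 2))
    (x : Site 1) (j : ℕ) (m : ℤ) : ENNReal.ofReal (y ^ m.natAbs) ≤ Q w α 1 {c | Rch c x j m} := by
  have hw0 : 0 ≤ 1 - (w : ℝ) := by linarith [w.2.2]
  have hw1 : 1 - (w : ℝ) < 1 := by linarith [w.2.1]
  have h1 : ∀ N : ℕ, ENNReal.ofReal (y ^ m.natAbs - (1 - w) ^ N) ≤ Q w α 1 {c | Rch c x j m} := fun N =>
    (rchN_prob w α hy0 hy1 hy x N j m).trans (measure_mono fun c hc => rchN_rch hc)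
  have h2 : Filter.Tendsto (fun N : ℕ => y ^ m.natAbs - (1 - (w : ℝ)) ^ N) Filter.atTop (nhds (y ^ m.natAbs - 0)) :=
    tendsto_const_nhds.sub (tendsto_pow_atTop_nhds_zero_of_lt_one hw0 hw1)
  rw [sub_zero] at h2
  exact le_of_tendsto ((ENNReal.continuous_ofReal.tendsto _).comp h2) (Filter.Eventually.of_forall h1)

end FDr.CB
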