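import Pool.Agent.Lib.MP_e029a2_pr.CO.Fvd

/-!
# Cylinder events, abstract version

`St s j`: an event for the cells `j, j + 1, ...` of the first frog; `RE z n`: events for the cells in the orthant of `z`.
-/

set_option autoImplicit false

namespace FDr.CB

open MeasureTheory ProbabilityTheory
open scoped ENNReal
open FDr.CO (Or sgn or_avoid)

theorem cyl3 (w α : Set.Ioo (0 : ℝ) 1) (D : ℕ) [NeZero D] (St : (Fin D → Bool) → ℕ → Conf D → Prop)
    (RE : Site D → ℕ → Conf D → Prop) (hSd : ∀ s j, Dep {q : Site D × ℕ | q.1 = 0 ∧ j ≤ q.2} fun c : Conf D => St s j c)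
    (hSm : ∀ s j, MeasurableSet {c : Conf D | St s j c}) {cs : ℝ≥0∞} (hcs : cs ≤ 1)
    (hSp : ∀ s j, cs ≤ Q w α D {c | St s j c}) (hRm : ∀ z n, MeasurableSet {c : Conf D | RE z n c})
    (hRd : ∀ z n, Dep {q : Site D × ℕ | q.1.2 ∈ Or z.2 (sgn z.2)} fun c : Conf D => RE z n c) {c1 : ℝ≥0∞} (hc1 : c1 ≤ 1)
    (hcore : ∀ z : Site D, ∃ k0 : ℕ, ∀ k, k0 ≤ k → c1 ≤ Q w α D {c | RE z k c})
    (hinf : ∀ (c : Conf D) (j : ℕ) (z : Site D), ent c 0 j = z → St (sgn z.2) j c →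
      (∀ k : ℕ, ∃ n, k ≤ n ∧ RE z n c) → (visC c).Infinite)
    (S : Finset (Site D × ℕ)) (Z : Set (Conf D)) (hZ : Dep (S : Set (Site D × ℕ)) (fun c => c ∈ Z)) :
    cs * c1 * Q w α D Z ≤ Q w α D (Z ∩ {c | (visC c).Infinite}) := by
  classical
  set B : Finset (Fin D → ℤ) := insert 0 (S.image (fun p => p.1.2)) with hB
  obtain ⟨M, hM⟩ : ∃ M : ℕ, ∀ b ∈ B, ∀ i, |b i| ≤ (M : ℤ) := by
    refine ⟨B.sup fun b => Finset.univ.sup fun i => (b i).natAbs, fun b hb i => ?_⟩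
    have h1 : (b i).natAbs ≤ Finset.univ.sup fun i => (b i).natAbs :=
      Finset.le_sup (f := fun i => (b i).natAbs) (Finset.mem_univ i)
    have h2 : (Finset.univ.sup fun i => (b i).natAbs) ≤ B.sup fun b => Finset.univ.sup fun i => (b i).natAbs :=
      Finset.le_sup (f := fun b : Fin D → ℤ => Finset.univ.sup fun i => (b i).natAbs) hb
    have h3 : ((b i).natAbs : ℤ) = |b i| := Int.natCast_natAbs _
    rw [← h3]
    exact_mod_cast h1.trans h2
  refine ENNReal.le_of_forall_pos_le_add fun ε hε _ => ?_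
  obtain ⟨j0, hj0⟩ := far w α D {0} (D * M + 1) (ε : ℝ≥0∞) (by exact_mod_cast hε)
  obtain ⟨j, hj3, hj4⟩ : ∃ j : ℕ, j0 ≤ j ∧ ∀ p ∈ S, p.2 < j := by
    refine ⟨j0 + 1 + S.sup (fun p => p.2), by omega, fun p hp => ?_⟩
    have h1 : p.2 ≤ S.sup (fun p => p.2) := Finset.le_sup (f := fun p : Site D × ℕ => p.2) hp
    omega
  let T0 : Set (Site D × ℕ) := (fun i => ((0 : Site D), i)) '' Set.Iio j
  have hT0 : T0.Finite := (Set.finite_Iio j).image _
  have hVd : Dep T0 (fun c : Conf D => ent c 0 j) := by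
    intro c c' h
    show (0 : Site D) + ∑ i ∈ Finset.range j, cvec (c (0, i)) =
      0 + ∑ i ∈ Finset.range j, cvec (c' (0, i))
    congr 1
    refine Finset.sum_congr rfl fun i hi => ?_
    rw [h _ ⟨i, Finset.mem_range.1 hi, rfl⟩]
  have hVm : Measurable (fun c : Conf D => ent c 0 j) := Dep.measurable hT0 hVd
  let T : Set (Site D × ℕ) := (S : Set (Site D × ℕ)) ∪ T0
  have hT : T.Finite := S.finite_toSet.union hT0
  have hPd : ∀ z : Site D, Dep T (fun c : Conf D => c ∈ Z ∧ ent c 0 j = z) := fun z =>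
    Dep.comp₂ (hZ.mono Set.subset_union_left) (hVd.mono Set.subset_union_right)
      (fun (p : Prop) (v : Site D) => p ∧ v = z)
  have hPm : ∀ z : Site D, MeasurableSet {c : Conf D | c ∈ Z ∧ ent c 0 j = z} := fun z =>
    Dep.measurableSet hT (hPd z)
  let T1 : Set (Site D × ℕ) := T ∪ {q : Site D × ℕ | q.1 = 0 ∧ j ≤ q.2}
  have hPSd : ∀ z : Site D, Dep T1 (fun c : Conf D => (c ∈ Z ∧ ent c 0 j = z) ∧ St (sgn z.2) j c) := fun z =>
    Dep.comp₂ ((hPd z).mono Set.subset_union_left) ((hSd _ j).mono Set.subset_union_right)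
      (fun (p q : Prop) => p ∧ q)
  have hPSm : ∀ z : Site D, MeasurableSet {c : Conf D | (c ∈ Z ∧ ent c 0 j = z) ∧ St (sgn z.2) j c} := fun z =>
    (hPm z).inter (hSm _ j)
  have hd1 : Disjoint T {q : Site D × ℕ | q.1 = 0 ∧ j ≤ q.2} := by
    rw [Set.disjoint_left]
    rintro q (h1 | ⟨i, h1, rfl⟩) ⟨h2, h3⟩
    · have h4 := hj4 q h1
      omega
    · have h4 : i < j := h1
      have h5 : j ≤ i := h3
      omega
  -- the good points
  let gd : Site D → Prop := fun z => ∃ i, (M : ℤ) < |z.2 i|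
  have hd2 : ∀ z : Site D, gd z → Disjoint T1 {q : Site D × ℕ | q.1.2 ∈ Or z.2 (sgn z.2)} := by
    rintro z ⟨i, hi⟩
    have h0 : ∀ b ∈ B, b ∉ Or z.2 (sgn z.2) := fun b hb => or_avoid hM hi hb
    rw [Set.disjoint_left]
    rintro q ((h1 | ⟨i', h1, rfl⟩) | h1) h2
    · exact h0 _ (Finset.mem_insert_of_mem (Finset.mem_image_of_mem _ h1)) h2
    · exact h0 _ (Finset.mem_insert_self _ _) h2
    · have h3 : q.1 = 0 := h1.1
      have h4 : q.1.2 ∈ Or z.2 (sgn z.2) := h2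
      rw [h3] at h4
      exact h0 _ (Finset.mem_insert_self _ _) h4
  -- the events
  let En : Site D → ℕ → Set (Conf D) := fun z n =>
    {c | ((c ∈ Z ∧ ent c 0 j = z) ∧ St (sgn z.2) j c) ∧ RE z n c}
  have hEnm : ∀ z n, MeasurableSet (En z n) := fun z n => (hPSm z).inter (hRm z n)
  have hEnq : ∀ z n, gd z → Q w α D (En z n) = Q w α D {c | c ∈ Z ∧ ent c 0 j = z} *
      Q w α D {c | St (sgn z.2) j c} * Q w α D {c | RE z n c} := by
    intro z n hz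
    have h1 := prob_and_dep (cellLaw w α D) (hd2 z hz) (hPSm z) (hRm z n) (hPSd z) (hRd z n)
    have h2 := prob_and_dep (cellLaw w α D) hd1 (hPm z) (hSm (sgn z.2) j) (hPd z) (hSd (sgn z.2) j)
    show Q w α D {c | ((c ∈ Z ∧ ent c 0 j = z) ∧ St (sgn z.2) j c) ∧ RE z n c} = _
    unfold Q
    rw [h1, h2]
  let E' : Site D → Set (Conf D) := fun z => {c | ∀ k : ℕ, ∃ n, k ≤ n ∧ c ∈ En z n}
  have hE'm : ∀ z, MeasurableSet (E' z) := by
    intro z
    have h1 : E' z = ⋂ k : ℕ, ⋃ n : ℕ, ⋃ (_ : k ≤ n), En z n := by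
      ext c
      simp only [Set.mem_iInter, Set.mem_iUnion]
      exact forall_congr' fun k => exists_congr fun n =>
        ⟨fun h => ⟨h.1, h.2⟩, fun ⟨h, h'⟩ => ⟨h, h'⟩⟩
    rw [h1]
    exact MeasurableSet.iInter fun k => MeasurableSet.iUnion fun n =>
      MeasurableSet.iUnion fun _ => hEnm z n
  have hE'd : Pairwise (Function.onFun Disjoint E') := by
    intro a b hab
    show Disjoint (E' a) (E' b)
    rw [Set.disjoint_left]
    intro c h1 h2
    obtain ⟨n, _, h3⟩ := h1 0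
    obtain ⟨n', _, h4⟩ := h2 0
    exact hab (h3.1.1.2.symm.trans h4.1.1.2)
  have hE's : (⋃ z, E' z) ⊆ Z ∩ {c | (visC c).Infinite} := by
    intro c hcU
    rw [Set.mem_iUnion] at hcU
    obtain ⟨z, hz⟩ := hcU
    obtain ⟨n, _, h3⟩ := hz 0
    refine ⟨h3.1.1.1, ?_⟩
    refine hinf c j z h3.1.1.2 h3.1.2 fun k => ?_
    obtain ⟨n, hn, h4⟩ := hz k
    exact ⟨n, hn, h4.2⟩
  have hkey : ∀ a : Site D, cs * c1 * Q w α D {c | (c ∈ Z ∧ gd (ent c 0 j)) ∧ ent c 0 j = a} ≤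
      Q w α D (E' a) := by
    intro a
    by_cases hg : gd a
    · have h1 : {c : Conf D | (c ∈ Z ∧ gd (ent c 0 j)) ∧ ent c 0 j = a} =
          {c | c ∈ Z ∧ ent c 0 j = a} := by
        ext c
        constructor
        · rintro ⟨⟨h2, _⟩, h3⟩
          exact ⟨h2, h3⟩
        · rintro ⟨h2, h3⟩
          exact ⟨⟨h2, by rw [h3]; exact hg⟩, h3⟩
      rw [h1]
      obtain ⟨k0, hk0⟩ := hcore a
      refine io_meas (Q w α D) (En a) (hEnm a) _ fun k => ?_
      refine ⟨k + k0, by omega, ?_⟩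
      rw [hEnq a _ hg]
      calc cs * c1 * Q w α D {c | c ∈ Z ∧ ent c 0 j = a}
          = Q w α D {c | c ∈ Z ∧ ent c 0 j = a} * cs * c1 := by ring
        _ ≤ _ := mul_le_mul' (mul_le_mul' le_rfl (hSp _ j)) (hk0 _ (by omega))
    · have h1 : {c : Conf D | (c ∈ Z ∧ gd (ent c 0 j)) ∧ ent c 0 j = a} = ∅ := by
        rw [Set.eq_empty_iff_forall_notMem]
        rintro c ⟨⟨_, h2⟩, h3⟩
        exact hg (h3 ▸ h2)
      rw [h1, measure_empty, mul_zero]
      exact zero_le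
  have hgm : MeasurableSet {c : Conf D | c ∈ Z ∧ gd (ent c 0 j)} :=
    Dep.measurableSet hT (Dep.comp₂ (hZ.mono Set.subset_union_left)
      (hVd.mono Set.subset_union_right) (fun (p : Prop) (v : Site D) => p ∧ gd v))
  have hmain : cs * c1 * Q w α D {c | c ∈ Z ∧ gd (ent c 0 j)} ≤
      Q w α D (Z ∩ {c | (visC c).Infinite}) := by
    rw [lint_part (Q w α D) (fun c : Conf D => ent c 0 j) hVm
      (fun c => c ∈ Z ∧ gd (ent c 0 j)) hgm, ← ENNReal.tsum_mul_left]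
    calc ∑' a : Site D, cs * c1 * Q w α D {c | (c ∈ Z ∧ gd (ent c 0 j)) ∧ ent c 0 j = a}
        ≤ ∑' a : Site D, Q w α D (E' a) := ENNReal.tsum_le_tsum hkey
      _ = Q w α D (⋃ a, E' a) := (measure_iUnion hE'd hE'm).symm
      _ ≤ _ := measure_mono hE's
  have hsub : Q w α D Z ≤ Q w α D {c | c ∈ Z ∧ gd (ent c 0 j)} + ε := by
    refine (measure_mono (t := {c | c ∈ Z ∧ gd (ent c 0 j)} ∪
      {c | ∃ b ∈ ({0} : Finset (Fin D → ℤ)), ∑ i, |(ent c 0 j).2 i - b i| < ((D * M + 1 : ℕ) : ℤ)}) ?_).trans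
      ((measure_union_le _ _).trans (add_le_add le_rfl (hj0 j hj3)))
    intro c hcZ
    by_cases hg : gd (ent c 0 j)
    · exact Or.inl ⟨hcZ, hg⟩
    · right
      refine ⟨0, Finset.mem_singleton_self _, ?_⟩
      have h1 : ∀ i, |(ent c 0 j).2 i| ≤ (M : ℤ) := fun i => by
        by_contra hlt
        exact hg ⟨i, not_le.1 hlt⟩
      have h2 : ∑ i, |(ent c 0 j).2 i - (0 : Fin D → ℤ) i| ≤ ∑ _i : Fin D, (M : ℤ) :=
        Finset.sum_le_sum fun i _ => by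
          rw [Pi.zero_apply, sub_zero]
          exact h1 i
      rw [Finset.sum_const, Finset.card_univ, Fintype.card_fin, nsmul_eq_mul] at h2
      push_cast
      linarith
  have hc2 : cs * c1 ≤ 1 := by
    calc cs * c1 ≤ 1 * 1 := mul_le_mul' hcs hc1
      _ = 1 := one_mul 1
  calc cs * c1 * Q w α D Z ≤ cs * c1 * (Q w α D {c | c ∈ Z ∧ gd (ent c 0 j)} + ε) :=
        mul_le_mul_right hsub _
    _ = cs * c1 * Q w α D {c | c ∈ Z ∧ gd (ent c 0 j)} + cs * c1 * ε := mul_add _ _ _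
    _ ≤ Q w α D (Z ∩ {c | (visC c).Infinite}) + ε := by
      refine add_le_add hmain ?_
      calc cs * c1 * (ε : ℝ≥0∞) ≤ 1 * ε := mul_le_mul_left hc2 _
        _ = ε := one_mul _


/-- the abstract criterion -/
theorem inf_of (w α : Set.Ioo (0 : ℝ) 1) (D : ℕ) [NeZero D] (St : (Fin D → Bool) → ℕ → Conf D → Prop)
    (RE : Site D → ℕ → Conf D → Prop) (hSd : ∀ s j, Dep {q : Site D × ℕ | q.1 = 0 ∧ j ≤ q.2} fun c : Conf D => St s j c)
    (hSm : ∀ s j, MeasurableSet {c : Conf D | St s j c}) {cs : ℝ≥0∞} (hcs0 : 0 < cs)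
    (hSp : ∀ s j, cs ≤ Q w α D {c | St s j c}) (hRm : ∀ z n, MeasurableSet {c : Conf D | RE z n c})
    (hRd : ∀ z n, Dep {q : Site D × ℕ | q.1.2 ∈ Or z.2 (sgn z.2)} fun c : Conf D => RE z n c) {c1 : ℝ≥0∞} (hc0 : 0 < c1)
    (hcore : ∀ z : Site D, ∃ k0 : ℕ, ∀ k, k0 ≤ k → c1 ≤ Q w α D {c | RE z k c})
    (hinf : ∀ (c : Conf D) (j : ℕ) (z : Site D), ent c 0 j = z → St (sgn z.2) j c →
      (∀ k : ℕ, ∃ n, k ≤ n ∧ RE z n c) → (visC c).Infinite) :
    Q w α D {c | (visC c).Infinite}ᶜ = 0 := by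
  have hc1 : c1 ≤ 1 := by
    obtain ⟨k0, hk0⟩ := hcore 0
    exact (hk0 k0 le_rfl).trans prob_le_one
  have hcs : cs ≤ 1 := (hSp (fun _ => true) 0).trans prob_le_one
  refine levy (cellLaw w α D) {c | (visC c).Infinite} (visC_meas D) (cs * c1) (ENNReal.mul_pos hcs0.ne' hc0.ne')
    (ENNReal.mul_ne_top (ne_top_of_le_ne_top ENNReal.one_ne_top hcs) (ne_top_of_le_ne_top ENNReal.one_ne_top hc1))
    fun S Z hZ => cyl3 w α D St RE hSd hSm hcs hSp hRm hRd hc1 hcore hinf S Z hZ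

end FDr.CB
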