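import Pool.Agent.Lib.MP_e029a2_pr.CO.Fv1

/-!
# Dimension two, drift close to one: blocks of columns

`D = 1`: the sites are `(h, v)`, `h` the coordinate along the drift, `v` (a function on `Fin 1`) the vertical coordinate.
The quadrant of a point `z` and a sign `s`: the point number `(i, t)` is `i` columns on the left of `z`, and `t` sites
above (`s = true`) or below (`s = false`) `z`.  A block: the sites `(i, t)` of one column with
`K + k N ≤ t < K + (k + 1) N`.
-/

set_option autoImplicit false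

namespace FDr.CB

open MeasureTheory ProbabilityTheory
open scoped ENNReal

/-- the parameters: `N` the length of a block, `K` the range of the covering, `R` the spacing of the frogs which are
kept for the returns -/
structure Par where
  N : ℕ
  K : ℕ
  R : ℕ
  K1 : 1 ≤ K
  KN : 2 * K ≤ N
  R2 : 2 ≤ R
  RK : R ∣ K
  RN : R ∣ N

/-- the point number `(i, t)` of the quadrant of `z` with the sign `s` -/
def P (z : Site 1) (s : Bool) (i : ℕ) (t : ℤ) : Site 1 := (z.1 - i, fun _ => z.2 0 + sg s * t)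

/-- the frog `x`, from its cell `j` on, moves vertically (without horizontal steps) by `m` -/
def Rch (c : Conf 1) (x : Site 1) (j : ℕ) (m : ℤ) : Prop :=
  ∃ n : ℕ, (∀ i < n, (c (x, j + i)).1 = []) ∧ ∑ i ∈ Finset.range n, sg (c (x, j + i)).2.2 = m

/-- the sites of the block `k` -/
def InB (p : Par) (k : ℕ) (t : ℤ) : Prop := (p.K : ℤ) + k * p.N ≤ t ∧ t < (p.K : ℤ) + (k + 1) * p.N

/-- the frogs which are used for the growth -/
def Gw (p : Par) (t : ℤ) : Prop := ¬ (p.R : ℤ) ∣ t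

/-- covered from below -/
def CvU (p : Par) (c : Conf 1) (z : Site 1) (s : Bool) (i : ℕ) (t : ℤ) : Prop :=
  ∃ m : ℤ, 1 ≤ m ∧ m ≤ p.K ∧ Gw p (t - m) ∧ Rch c (P z s i (t - m)) 0 (sg s * m)

/-- covered from above -/
def CvD (p : Par) (c : Conf 1) (z : Site 1) (s : Bool) (i : ℕ) (t : ℤ) : Prop :=
  ∃ m : ℤ, 1 ≤ m ∧ m ≤ p.K ∧ Gw p (t + m) ∧ Rch c (P z s i (t + m)) 0 (-(sg s * m))

/-- a frog of the block jumps to the left (`b = false`) or to the right (`b = true`) and covers `K` sites of the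
neighbouring column -/
def Jm (p : Par) (c : Conf 1) (z : Site 1) (s : Bool) (i k : ℕ) (b : Bool) : Prop :=
  ∃ t : ℤ, (p.K : ℤ) + k * p.N ≤ t ∧ t + 1 < ((k : ℤ) + 1) * p.N ∧ Gw p t ∧
    c (P z s i t, 0) = ([b], (0, s)) ∧ Rch c (P z s i t) 1 (sg s * p.K)

/-- good blocks -/
def Good (p : Par) (z : Site 1) (s : Bool) (c : Conf 1) (x : ℕ × ℕ) : Prop :=
  (∀ t, InB p x.2 t → CvU p c z s x.1 t ∧ CvD p c z s x.1 t) ∧ ∀ b, Jm p c z s x.1 x.2 b

/-- all the frogs of the block are active -/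
def AB (p : Par) (z : Site 1) (s : Bool) (c : Conf 1) (x : ℕ × ℕ) : Prop := ∀ t, InB p x.2 t → ActC c (P z s x.1 t)

/-- the cells on which a good block depends -/
def cel (p : Par) (z : Site 1) (s : Bool) (x : ℕ × ℕ) : Set (Site 1 × ℕ) :=
  {q | ∃ t : ℤ, q.1 = P z s x.1 t ∧ Gw p t ∧ (x.2 : ℤ) * p.N ≤ t ∧ t < ((x.2 : ℤ) + 1) * p.N + 2 * p.K}

/-- the first frog, in its cells `j, ..., j + 2K - 1`, makes `2K` vertical steps with the sign `s` -/
def St (p : Par) (s : Bool) (j : ℕ) (c : Conf 1) : Prop := ∀ i < 2 * p.K, c (0, j + i) = ([], (0, s))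

/-- the return frog of the block `(i, k)` -/
def rf (p : Par) (z : Site 1) (s : Bool) (i k : ℕ) : Site 1 := P z s i ((p.K : ℤ) + k * p.N)

/-- a return from the column number `i` -/
def RE (p : Par) (z : Site 1) (s : Bool) (i : ℕ) (c : Conf 1) : Prop :=
  ∃ k : ℕ, CO.Conn (Good p z s c) (0, 0) (i, k) ∧ CO.Vs c (rf p z s i k)

/-- the finite-volume criterion -/
structure FV (w α : Set.Ioo (0 : ℝ) 1) (p : Par) : Prop where
  good : ∀ (z : Site 1) (s : Bool) (x : ℕ × ℕ), Q w α 1 {c | ¬ Good p z s c x} ≤ ENNReal.ofReal (1 / 100000)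

end FDr.CB
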