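import Pool.Agent.Lib.MP_e029a2_pr.CB.Det

/-!
# The cells on which the good blocks depend; measurability
-/

set_option autoImplicit false

namespace FDr.CB

open MeasureTheory ProbabilityTheory
open scoped ENNReal

theorem sg_cases (b : Bool) : sg b = 1 ∨ sg b = -1 := by
  unfold sg
  split_ifs
  · exact Or.inl rfl
  · exact Or.inr rfl

theorem P_inj {z : Site 1} {s : Bool} {i i' : ℕ} {t t' : ℤ} (h : P z s i t = P z s i' t') : i = i' ∧ t = t' := by
  have h1 : z.1 - (i : ℤ) = z.1 - i' := congrArg Prod.fst h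
  have h2 : z.2 0 + sg s * t = z.2 0 + sg s * t' := congrFun (congrArg Prod.snd h) 0
  refine ⟨by omega, ?_⟩
  rcases sg_cases s with h3 | h3
  · rw [h3] at h2
    omega
  · rw [h3] at h2
    omega

/-! ### Dependence -/

theorem rch_dep (x : Site 1) (j : ℕ) (m : ℤ) : Dep {q : Site 1 × ℕ | q.1 = x ∧ j ≤ q.2} fun c : Conf 1 => Rch c x j m := by
  intro c c' hc
  have h1 : ∀ i, c (x, j + i) = c' (x, j + i) := fun i => hc (x, j + i) ⟨rfl, Nat.le_add_right j i⟩
  unfold Rch
  simp only [h1]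

theorem good_one (p : Par) {z : Site 1} {s : Bool} {x : ℕ × ℕ} {c c' : Conf 1} (hc : ∀ q ∈ cel p z s x, c q = c' q)
    (H : Good p z s c x) : Good p z s c' x := by
  have hK : (1 : ℤ) ≤ p.K := by exact_mod_cast p.K1
  have hKN : 2 * (p.K : ℤ) ≤ p.N := by exact_mod_cast p.KN
  have e1 : ((x.2 : ℤ) + 1) * p.N = (x.2 : ℤ) * p.N + p.N := by ring
  have key : ∀ t : ℤ, Gw p t → (x.2 : ℤ) * p.N ≤ t → t < ((x.2 : ℤ) + 1) * p.N + 2 * p.K → ∀ j,
      c (P z s x.1 t, j) = c' (P z s x.1 t, j) := fun t h1 h2 h3 j => hc (P z s x.1 t, j) ⟨t, rfl, h1, h2, h3⟩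
  have keyR : ∀ t : ℤ, Gw p t → (x.2 : ℤ) * p.N ≤ t → t < ((x.2 : ℤ) + 1) * p.N + 2 * p.K → ∀ j m,
      Rch c (P z s x.1 t) j m → Rch c' (P z s x.1 t) j m := by
    intro t h1 h2 h3 j m h4
    have h5 : Rch c (P z s x.1 t) j m = Rch c' (P z s x.1 t) j m := rch_dep (P z s x.1 t) j m c c' (by
      rintro ⟨y, l⟩ ⟨h6, -⟩
      simp only at h6
      rw [h6]
      exact key t h1 h2 h3 l)
    rwa [← h5]
  refine ⟨fun t ht => ⟨?_, ?_⟩, fun b => ?_⟩
  · obtain ⟨m, h1, h2, h3, h4⟩ := (H.1 t ht).1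
    obtain ⟨h5, h6⟩ := ht
    exact ⟨m, h1, h2, h3, keyR _ h3 (by linarith) (by linarith) 0 _ h4⟩
  · obtain ⟨m, h1, h2, h3, h4⟩ := (H.1 t ht).2
    obtain ⟨h5, h6⟩ := ht
    exact ⟨m, h1, h2, h3, keyR _ h3 (by linarith) (by linarith) 0 _ h4⟩
  · obtain ⟨t, h1, h2, h3, h4, h5⟩ := H.2 b
    exact ⟨t, h1, h2, h3, by rw [← key t h3 (by linarith) (by linarith) 0]; exact h4,
      keyR t h3 (by linarith) (by linarith) 1 _ h5⟩

theorem good_dep (p : Par) (z : Site 1) (s : Bool) (x : ℕ × ℕ) : Dep (cel p z s x) fun c : Conf 1 => Good p z s c x :=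
  fun _ _ hc => propext ⟨good_one p hc, good_one p fun q hq => (hc q hq).symm⟩

theorem cel_far (p : Par) (z : Site 1) (s : Bool) {x y : ℕ × ℕ} (h : CO.Far x y) :
    Disjoint (cel p z s x) (cel p z s y) := by
  rw [Set.disjoint_left]
  rintro q ⟨t, h1, -, h2, h3⟩ ⟨t', h4, -, h5, h6⟩
  obtain ⟨h7, rfl⟩ := P_inj (h1.symm.trans h4)
  have hKN : 2 * (p.K : ℤ) ≤ p.N := by exact_mod_cast p.KN
  have hN : (0 : ℤ) ≤ p.N := Int.natCast_nonneg _
  rcases h with h | h | h | h
  · omega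
  · omega
  · have h8 : ((x.2 : ℤ) + 2) ≤ y.2 := by exact_mod_cast h
    have h9 : ((x.2 : ℤ) + 2) * p.N ≤ y.2 * p.N := mul_le_mul_of_nonneg_right h8 hN
    have e1 : ((x.2 : ℤ) + 2) * p.N = ((x.2 : ℤ) + 1) * p.N + p.N := by ring
    linarith
  · have h8 : ((y.2 : ℤ) + 2) ≤ x.2 := by exact_mod_cast h
    have h9 : ((y.2 : ℤ) + 2) * p.N ≤ x.2 * p.N := mul_le_mul_of_nonneg_right h8 hN
    have e1 : ((y.2 : ℤ) + 2) * p.N = ((y.2 : ℤ) + 1) * p.N + p.N := by ring
    linarith

/-! ### Measurability -/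

theorem rch_meas (x : Site 1) (j : ℕ) (m : ℤ) : Measurable fun c : Conf 1 => Rch c x j m := by
  have h1 : MeasurableSet {c : Conf 1 | Rch c x j m} := by
    have h2 : {c : Conf 1 | Rch c x j m} = ⋃ n : ℕ, {c : Conf 1 | (∀ i < n, (c (x, j + i)).1 = []) ∧
        ∑ i ∈ Finset.range n, sg (c (x, j + i)).2.2 = m} := by
      ext c
      rw [Set.mem_iUnion]
      rfl
    rw [h2]
    refine MeasurableSet.iUnion fun n => ?_
    refine Dep.measurableSet ((Set.finite_Iio n).image fun i => (x, j + i)) ?_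
    intro c c' hc
    have h3 : ∀ i < n, c (x, j + i) = c' (x, j + i) := fun i hi => hc (x, j + i) ⟨i, hi, rfl⟩
    have h4 : ∑ i ∈ Finset.range n, sg (c (x, j + i)).2.2 = ∑ i ∈ Finset.range n, sg (c' (x, j + i)).2.2 :=
      Finset.sum_congr rfl fun i hi => by rw [h3 i (Finset.mem_range.1 hi)]
    have h5 : (∀ i < n, (c (x, j + i)).1 = []) = (∀ i < n, (c' (x, j + i)).1 = []) :=
      propext (forall₂_congr fun i hi => by rw [h3 i hi])
    show ((∀ i < n, (c (x, j + i)).1 = []) ∧ ∑ i ∈ Finset.range n, sg (c (x, j + i)).2.2 = m) =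
      ((∀ i < n, (c' (x, j + i)).1 = []) ∧ ∑ i ∈ Finset.range n, sg (c' (x, j + i)).2.2 = m)
    rw [h4, h5]
  exact measurableSet_setOfPred.1 h1

theorem cell_meas (q : Site 1 × ℕ) (a : Cell 1) : Measurable fun c : Conf 1 => c q = a :=
  (measurable_of_countable fun b : Cell 1 => b = a).comp (measurable_pi_apply q)

theorem good_meas (p : Par) (z : Site 1) (s : Bool) (x : ℕ × ℕ) : MeasurableSet {c : Conf 1 | Good p z s c x} := by
  refine measurableSet_setOfPred.2 ?_
  unfold Good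
  refine Measurable.and ?_ ?_
  · refine Measurable.forall fun t => Measurable.imp measurable_const (Measurable.and ?_ ?_)
    · unfold CvU
      exact Measurable.exists fun m => measurable_const.and (measurable_const.and (measurable_const.and (rch_meas _ _ _)))
    · unfold CvD
      exact Measurable.exists fun m => measurable_const.and (measurable_const.and (measurable_const.and (rch_meas _ _ _)))
  · refine Measurable.forall fun b => ?_
    unfold Jm
    exact Measurable.exists fun t => measurable_const.and (measurable_const.and (measurable_const.and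
      ((cell_meas _ _).and (rch_meas _ _ _))))

end FDr.CB
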