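import Pool.Agent.Lib.MP_e029a2_pr.CB.Def

/-!
# A good active block activates its good neighbours
-/

set_option autoImplicit false

namespace FDr.CB

open MeasureTheory ProbabilityTheory
open scoped ENNReal

theorem dv_one (d : Dir 1) : dv d = fun _ => sg d.2 := by
  obtain ⟨i, b⟩ := d
  funext t
  unfold dv
  have h1 : t = i := Subsingleton.elim _ _
  rw [h1, Pi.single_eq_same]

theorem P_add (z : Site 1) (s : Bool) (i : ℕ) (t m : ℤ) : P z s i t + (0, fun _ => sg s * m) = P z s i (t + m) := by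
  refine Prod.ext ?_ ?_
  · show z.1 - (i : ℤ) + 0 = z.1 - i
    rw [add_zero]
  · funext j
    show z.2 0 + sg s * t + sg s * m = z.2 0 + sg s * (t + m)
    ring

theorem P_left (z : Site 1) (s : Bool) (i : ℕ) (t : ℤ) : P z s i t + (-1, fun _ => sg s) = P z s (i + 1) (t + 1) := by
  refine Prod.ext ?_ ?_
  · show z.1 - (i : ℤ) + -1 = z.1 - ((i + 1 : ℕ) : ℤ)
    push_cast
    ring
  · funext j
    show z.2 0 + sg s * t + sg s = z.2 0 + sg s * (t + 1)
    ring

theorem P_right (z : Site 1) (s : Bool) (i : ℕ) (t : ℤ) :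
    P z s (i + 1) t + (1, fun _ => sg s) = P z s i (t + 1) := by
  refine Prod.ext ?_ ?_
  · show z.1 - ((i + 1 : ℕ) : ℤ) + 1 = z.1 - (i : ℤ)
    push_cast
    ring
  · funext j
    show z.2 0 + sg s * t + sg s = z.2 0 + sg s * (t + 1)
    ring

/-- vertical movements -/
theorem ent_vert {c : Conf 1} {x : Site 1} {j n : ℕ} (h : ∀ i < n, (c (x, j + i)).1 = []) :
    ent c x (j + n) = ent c x j + (0, fun _ => ∑ i ∈ Finset.range n, sg (c (x, j + i)).2.2) := by
  induction n with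
  | zero =>
    rw [add_zero, Finset.sum_range_zero]
    exact (add_zero (ent c x j)).symm
  | succ n ih =>
    rw [← add_assoc, ent_succ, ih fun i hi => h i (Nat.lt_succ_of_lt hi)]
    unfold cvec
    rw [h n (Nat.lt_succ_self n), dv_one, add_assoc]
    congr 1
    refine Prod.ext ?_ ?_
    · simp [dsp]
    · funext t
      show (∑ i ∈ Finset.range n, sg (c (x, j + i)).2.2) + sg (c (x, j + n)).2.2 = _
      rw [Finset.sum_range_succ]

theorem rch_act {c : Conf 1} {x : Site 1} {j : ℕ} {m : ℤ} (hx : ActC c x) (h : Rch c x j m) :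
    ActC c (ent c x j + (0, fun _ => m)) := by
  obtain ⟨n, h1, h2⟩ := h
  have h3 := ActC.visit x (j + n) 0 hx ⟨0, Nat.zero_le _, by simp [dsp]⟩
  rw [ent_vert h1, h2] at h3
  have h4 : ((0 : ℤ), (0 : Fin 1 → ℤ)) = 0 := rfl
  rwa [h4, add_zero] at h3

theorem rch_conv {c : Conf 1} {x : Site 1} {j : ℕ} {m a : ℤ} (h : Rch c x j m) (ha : (0 ≤ a ∧ a ≤ m) ∨ (m ≤ a ∧ a ≤ 0)) :
    Rch c x j a := by
  obtain ⟨n, h1, h2⟩ := h
  induction n generalizing m with
  | zero =>
    rw [Finset.sum_range_zero] at h2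
    refine ⟨0, fun i hi => absurd hi (Nat.not_lt_zero i), ?_⟩
    rw [Finset.sum_range_zero]
    omega
  | succ n ih =>
    rw [Finset.sum_range_succ] at h2
    obtain ⟨S, hS⟩ : ∃ S, S = ∑ i ∈ Finset.range n, sg (c (x, j + i)).2.2 := ⟨_, rfl⟩
    by_cases h3 : (0 ≤ a ∧ a ≤ S) ∨ (S ≤ a ∧ a ≤ 0)
    · exact ih (m := S) h3 (fun i hi => h1 i (Nat.lt_succ_of_lt hi)) hS.symm
    · refine ⟨n + 1, h1, ?_⟩
      rw [Finset.sum_range_succ]
      rw [← hS] at h2 ⊢
      have h4 : sg (c (x, j + n)).2.2 = 1 ∨ sg (c (x, j + n)).2.2 = -1 := by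
        unfold sg
        split_ifs
        · exact Or.inl rfl
        · exact Or.inr rfl
      omega

/-- a frog of a column which is active, and reaches the site at distance `m` -/
theorem act_P {c : Conf 1} {z : Site 1} {s : Bool} {i : ℕ} {t m : ℤ} (h1 : ActC c (P z s i t))
    (h2 : Rch c (P z s i t) 0 (sg s * m)) : ActC c (P z s i (t + m)) := by
  have h3 := rch_act h1 h2
  rw [ent_zero] at h3
  rwa [P_add] at h3

theorem cover_up (p : Par) {c : Conf 1} {z : Site 1} {s : Bool} {i : ℕ} {a b : ℤ}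
    (hc : ∀ t, a ≤ t → t < b → CvU p c z s i t) (hA : ∀ t, a - p.K ≤ t → t < a → ActC c (P z s i t)) :
    ∀ n : ℕ, ∀ t, t = a + n → t < b → ActC c (P z s i t) := by
  intro n
  induction n using Nat.strong_induction_on with
  | _ n ih =>
    intro t hn hb
    have hn0 : (0 : ℤ) ≤ (n : ℤ) := Int.natCast_nonneg _
    obtain ⟨m, hm1, hm2, _, hm3⟩ := hc t (by linarith) hb
    have h2 : ActC c (P z s i (t - m)) := by
      rcases lt_or_ge (t - m) a with h3 | h3
      · exact hA _ (by linarith) h3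
      · obtain ⟨m', hm'⟩ : ∃ m' : ℕ, (m' : ℤ) = t - m - a := ⟨(t - m - a).toNat, Int.toNat_of_nonneg (by linarith)⟩
        refine ih m' ?_ (t - m) (by linarith) (by linarith)
        have : (m' : ℤ) < n := by rw [hm', hn]; linarith
        exact_mod_cast this
    have h3 := act_P h2 hm3
    rwa [show t - m + m = t by ring] at h3

theorem cover_down (p : Par) {c : Conf 1} {z : Site 1} {s : Bool} {i : ℕ} {a b : ℤ}
    (hc : ∀ t, a ≤ t → t < b → CvD p c z s i t) (hA : ∀ t, b ≤ t → t < b + p.K → ActC c (P z s i t)) :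
    ∀ n : ℕ, ∀ t, t = b - 1 - n → a ≤ t → ActC c (P z s i t) := by
  intro n
  induction n using Nat.strong_induction_on with
  | _ n ih =>
    intro t hn ha
    have hn0 : (0 : ℤ) ≤ (n : ℤ) := Int.natCast_nonneg _
    obtain ⟨m, hm1, hm2, _, hm3⟩ := hc t ha (by linarith)
    have h2 : ActC c (P z s i (t + m)) := by
      rcases lt_or_ge (t + m) b with h3 | h3
      · obtain ⟨m', hm'⟩ : ∃ m' : ℕ, (m' : ℤ) = b - 1 - (t + m) := ⟨(b - 1 - (t + m)).toNat, Int.toNat_of_nonneg (by linarith)⟩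
        refine ih m' ?_ (t + m) (by linarith) (by linarith)
        have : (m' : ℤ) < n := by rw [hm']; linarith
        exact_mod_cast this
      · exact hA _ h3 (by linarith)
    have h4 : -(sg s * m) = sg s * (-m) := by ring
    rw [h4] at hm3
    have h3 := act_P h2 hm3
    rwa [show t + m + -m = t by ring] at h3

theorem up_all (p : Par) {c : Conf 1} {z : Site 1} {s : Bool} {i : ℕ} {a b : ℤ}
    (hc : ∀ t, a ≤ t → t < b → CvU p c z s i t) (hA : ∀ t, a - p.K ≤ t → t < a → ActC c (P z s i t)) {t : ℤ}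
    (h1 : a ≤ t) (h2 : t < b) : ActC c (P z s i t) := by
  obtain ⟨n, hn⟩ : ∃ n : ℕ, (n : ℤ) = t - a := ⟨(t - a).toNat, Int.toNat_of_nonneg (by linarith)⟩
  exact cover_up p hc hA n t (by linarith) h2

theorem down_all (p : Par) {c : Conf 1} {z : Site 1} {s : Bool} {i : ℕ} {a b : ℤ}
    (hc : ∀ t, a ≤ t → t < b → CvD p c z s i t) (hA : ∀ t, b ≤ t → t < b + p.K → ActC c (P z s i t)) {t : ℤ}
    (h1 : a ≤ t) (h2 : t < b) : ActC c (P z s i t) := by
  obtain ⟨n, hn⟩ : ∃ n : ℕ, (n : ℤ) = b - 1 - t := ⟨(b - 1 - t).toNat, Int.toNat_of_nonneg (by linarith)⟩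
  exact cover_down p hc hA n t (by linarith) h1

/-- the block is active if `K` consecutive sites of it are active -/
theorem ab_of_window (p : Par) {c : Conf 1} {z : Site 1} {s : Bool} {x : ℕ × ℕ} (hg : Good p z s c x) {T : ℤ}
    (h1 : (p.K : ℤ) + x.2 * p.N ≤ T) (h2 : T + p.K ≤ (p.K : ℤ) + (x.2 + 1) * p.N)
    (hA : ∀ t, T ≤ t → t < T + p.K → ActC c (P z s x.1 t)) : AB p z s c x := by
  rintro t ⟨h3, h4⟩
  rcases lt_or_ge t T with h5 | h5
  · exact down_all p (a := (p.K : ℤ) + x.2 * p.N) (b := T) (fun t h6 h7 => (hg.1 t ⟨h6, by linarith⟩).2)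
      (fun t h6 h7 => hA t h6 h7) h3 h5
  · rcases lt_or_ge t (T + p.K) with h6 | h6
    · exact hA t h5 h6
    · exact up_all p (a := T + p.K) (b := (p.K : ℤ) + (x.2 + 1) * p.N) (fun t h7 h8 => (hg.1 t ⟨by linarith, h8⟩).1)
        (fun t h7 h8 => hA t (by linarith) (by linarith)) h6 h4

theorem ab_up (p : Par) {c : Conf 1} {z : Site 1} {s : Bool} {i k : ℕ} (h : AB p z s c (i, k))
    (hg : Good p z s c (i, k + 1)) : AB p z s c (i, k + 1) := by
  have hKN : 2 * (p.K : ℤ) ≤ p.N := by exact_mod_cast p.KN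
  have hK : (1 : ℤ) ≤ p.K := by exact_mod_cast p.K1
  rintro t ⟨h3, h4⟩
  simp only at h3 h4
  push_cast at h3 h4
  have e1 : ((k : ℤ) + 1) * p.N = (k : ℤ) * p.N + p.N := by ring
  refine up_all p (a := (p.K : ℤ) + (k + 1) * p.N) (b := (p.K : ℤ) + (k + 1 + 1) * p.N)
    (fun t h7 h8 => (hg.1 t ⟨by push_cast; exact h7, by push_cast; exact h8⟩).1)
    (fun t h7 h8 => h t ⟨?_, ?_⟩) h3 h4
  · show (p.K : ℤ) + k * p.N ≤ t
    linarith
  · show t < (p.K : ℤ) + (k + 1) * p.N
    exact h8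

theorem ab_down (p : Par) {c : Conf 1} {z : Site 1} {s : Bool} {i k : ℕ} (h : AB p z s c (i, k + 1))
    (hg : Good p z s c (i, k)) : AB p z s c (i, k) := by
  have hKN : 2 * (p.K : ℤ) ≤ p.N := by exact_mod_cast p.KN
  have hK : (1 : ℤ) ≤ p.K := by exact_mod_cast p.K1
  rintro t ⟨h3, h4⟩
  simp only at h3 h4
  refine down_all p (a := (p.K : ℤ) + k * p.N) (b := (p.K : ℤ) + (k + 1) * p.N)
    (fun t h7 h8 => (hg.1 t ⟨h7, h8⟩).2)
    (fun t h7 h8 => h t ⟨?_, ?_⟩) h3 h4
  · show (p.K : ℤ) + ((k + 1 : ℕ) : ℤ) * p.N ≤ t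
    push_cast
    exact h7
  · show t < (p.K : ℤ) + (((k + 1 : ℕ) : ℤ) + 1) * p.N
    push_cast
    have e1 : ((k : ℤ) + 1 + 1) * p.N = ((k : ℤ) + 1) * p.N + p.N := by ring
    linarith

/-- the sites which are covered after a jump -/
theorem jump_act {c : Conf 1} {z : Site 1} {s : Bool} {i : ℕ} {t : ℤ} {K : ℤ} {b : Bool}
    (h1 : ActC c (P z s i t)) (h2 : c (P z s i t, 0) = ([b], (0, s))) (h3 : Rch c (P z s i t) 1 (sg s * K)) {a : ℤ}
    (ha0 : 0 ≤ a) (ha : a ≤ K) : ActC c (P z s i t + (sg b, fun _ => sg s) + (0, fun _ => sg s * a)) := by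
  have h4 : ent c (P z s i t) 1 = P z s i t + (sg b, fun _ => sg s) := by
    have e1 : ent c (P z s i t) 1 = ent c (P z s i t) 0 + cvec (c (P z s i t, 0)) := ent_succ c _ 0
    rw [e1, ent_zero]
    unfold cvec
    rw [h2, dv_one]
    congr 1
    refine Prod.ext ?_ rfl
    simp [dsp]
  have h5 : Rch c (P z s i t) 1 (sg s * a) := by
    refine rch_conv h3 ?_
    cases s
    · right
      simp only [sg, Bool.false_eq_true, if_false]
      constructor <;> linarith
    · left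
      simp only [sg, if_true]
      constructor <;> linarith
  have h6 := rch_act h1 h5
  rwa [h4] at h6

theorem ab_left (p : Par) {c : Conf 1} {z : Site 1} {s : Bool} {i k : ℕ} (h : AB p z s c (i, k))
    (hg : Good p z s c (i, k)) (hg' : Good p z s c (i + 1, k)) : AB p z s c (i + 1, k) := by
  have hK : (1 : ℤ) ≤ p.K := by exact_mod_cast p.K1
  obtain ⟨t, h1, h2, _, h4, h5⟩ := hg.2 false
  simp only at h1 h2 h4 h5
  have e1 : ((k : ℤ) + 1) * p.N = (k : ℤ) * p.N + p.N := by ring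
  have h6 := h t ⟨h1, by show t < (p.K : ℤ) + (k + 1) * p.N; linarith⟩
  refine ab_of_window p (T := t + 1) hg' (by show (p.K : ℤ) + k * p.N ≤ t + 1; linarith)
    (by show t + 1 + p.K ≤ (p.K : ℤ) + (k + 1) * p.N; linarith) ?_
  intro a h7 h8
  have h9 := jump_act h6 h4 h5 (a := a - (t + 1)) (by linarith) (by linarith)
  have h10 : ((sg false, fun _ => sg s) : Site 1) = (-1, fun _ => sg s) := rfl
  rw [h10, P_left, P_add] at h9
  rwa [show t + 1 + (a - (t + 1)) = a by ring] at h9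

theorem ab_right (p : Par) {c : Conf 1} {z : Site 1} {s : Bool} {i k : ℕ} (h : AB p z s c (i + 1, k))
    (hg : Good p z s c (i + 1, k)) (hg' : Good p z s c (i, k)) : AB p z s c (i, k) := by
  have hK : (1 : ℤ) ≤ p.K := by exact_mod_cast p.K1
  obtain ⟨t, h1, h2, _, h4, h5⟩ := hg.2 true
  simp only at h1 h2 h4 h5
  have e1 : ((k : ℤ) + 1) * p.N = (k : ℤ) * p.N + p.N := by ring
  have h6 := h t ⟨h1, by show t < (p.K : ℤ) + (k + 1) * p.N; linarith⟩
  refine ab_of_window p (T := t + 1) hg' (by show (p.K : ℤ) + k * p.N ≤ t + 1; linarith)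
    (by show t + 1 + p.K ≤ (p.K : ℤ) + (k + 1) * p.N; linarith) ?_
  intro a h7 h8
  have h9 := jump_act h6 h4 h5 (a := a - (t + 1)) (by linarith) (by linarith)
  have h10 : ((sg true, fun _ => sg s) : Site 1) = (1, fun _ => sg s) := rfl
  rw [h10, P_right, P_add] at h9
  rwa [show t + 1 + (a - (t + 1)) = a by ring] at h9

/-- **A good active block activates its good neighbours.** -/
theorem ab_step (p : Par) {c : Conf 1} {z : Site 1} {s : Bool} {x y : ℕ × ℕ} (hxy : CO.Adj x y)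
    (hx : Good p z s c x) (hy : Good p z s c y) (h : AB p z s c x) : AB p z s c y := by
  obtain ⟨i, k⟩ := x
  obtain ⟨i', k'⟩ := y
  rcases hxy with ⟨h1, h2 | h2⟩ | ⟨h1, h2 | h2⟩
  · simp only at h1 h2
    subst h1 h2
    exact ab_down p h hy
  · simp only at h1 h2
    subst h1 h2
    exact ab_up p h hy
  · simp only at h1 h2
    subst h1 h2
    exact ab_right p h hx hy
  · simp only at h1 h2
    subst h1 h2
    exact ab_left p h hx hy

/-- **The blocks which are connected with an active block are active.** -/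
theorem ab_conn (p : Par) {c : Conf 1} {z : Site 1} {s : Bool} {x y : ℕ × ℕ}
    (hxy : CO.Conn (Good p z s c) x y) (h : AB p z s c x) : AB p z s c y := by
  induction hxy with
  | refl _ => exact h
  | step y z' h1 h2 h3 ih => exact ab_step p h2 h1.right h3 ih

theorem St_ent (p : Par) {c : Conf 1} {s : Bool} {j : ℕ} (hr : St p s j c) {n : ℕ} (hn : n ≤ 2 * p.K) :
    ent c 0 (j + n) = ent c 0 j + (0, fun _ => sg s * n) := by
  rw [ent_vert fun i hi => by rw [hr i (lt_of_lt_of_le hi hn)]]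
  congr 1
  refine Prod.ext rfl ?_
  funext t
  show ∑ i ∈ Finset.range n, sg (c (0, j + i)).2.2 = sg s * n
  rw [Finset.sum_congr rfl fun i hi => by rw [hr i (lt_of_lt_of_le (Finset.mem_range.1 hi) hn)], Finset.sum_const,
    Finset.card_range, nsmul_eq_mul, mul_comm]

/-- **The start.** -/
theorem ab_start (p : Par) {c : Conf 1} {s : Bool} {j : ℕ} {z : Site 1} (hz : ent c 0 j = z)
    (hr : St p s j c) (hg : Good p z s c (0, 0)) : AB p z s c (0, 0) := by
  have hK : (1 : ℤ) ≤ p.K := by exact_mod_cast p.K1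
  have hKN : 2 * (p.K : ℤ) ≤ p.N := by exact_mod_cast p.KN
  have hP : ∀ n : ℕ, n ≤ 2 * p.K → ActC c (P z s 0 n) := by
    intro n hn
    have h3 := ActC.visit (c := c) 0 (j + n) 0 ActC.start ⟨0, Nat.zero_le _, by simp [dsp]⟩
    rw [St_ent p hr hn, hz] at h3
    have h4 : z + (0, fun _ => sg s * (n : ℤ)) + (0, 0) = P z s 0 n := by
      refine Prod.ext ?_ ?_
      · show z.1 + 0 + 0 = z.1 - ((0 : ℕ) : ℤ)
        push_cast
        ring
      · funext t
        have ht : t = 0 := Subsingleton.elim _ _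
        show z.2 t + sg s * (n : ℤ) + 0 = z.2 0 + sg s * n
        rw [ht, add_zero]
    rwa [h4] at h3
  refine ab_of_window p (T := p.K) hg (by simp) ?_ ?_
  · show (p.K : ℤ) + p.K ≤ (p.K : ℤ) + (((0 : ℕ) : ℤ) + 1) * p.N
    push_cast
    linarith
  · intro t h1 h2
    obtain ⟨n, hn⟩ : ∃ n : ℕ, (n : ℤ) = t := ⟨t.toNat, Int.toNat_of_nonneg (by linarith)⟩
    have h3 : n ≤ 2 * p.K := by
      have : (n : ℤ) ≤ 2 * p.K := by linarith
      exact_mod_cast this
    have h4 := hP n h3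
    rwa [hn] at h4

end FDr.CB
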