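import Pool.Agent.Lib.MP_e029a2_pr.CB.Est

/-!
# The probability that a block is not good
-/

set_option autoImplicit false

namespace FDr.CB

open MeasureTheory ProbabilityTheory
open scoped ENNReal

variable (w α : Set.Ioo (0 : ℝ) 1)

theorem compl_le (P' : Conf 1 → Prop) (hm : MeasurableSet {c : Conf 1 | P' c}) {r : ℝ} (hr : 0 ≤ r)
    (h : ENNReal.ofReal r ≤ Q w α 1 {c | P' c}) : Q w α 1 {c | ¬ P' c} ≤ ENNReal.ofReal (1 - r) := by
  have h1 : {c : Conf 1 | ¬ P' c} = {c : Conf 1 | P' c}ᶜ := rfl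
  rw [h1, prob_compl_eq_one_sub hm, ENNReal.ofReal_sub _ hr, ENNReal.ofReal_one]
  exact tsub_le_tsub_left h 1

theorem rch_meas' (x : Site 1) (j : ℕ) (m : ℤ) : MeasurableSet {c : Conf 1 | Rch c x j m} :=
  measurableSet_setOfPred.2 (rch_meas x j m)

/-- a family of frogs on a column, none of which reaches the height given for it -/
theorem none_prob {y : ℝ} (hy0 : 0 ≤ y) (hy1 : y ≤ 1) (hy : y ≤ (1 - w) / 2 * (1 + y ^ 2)) (F : Finset ℕ)
    (x : ℕ → Site 1) (hx : ∀ m ∈ F, ∀ m' ∈ F, m ≠ m' → x m ≠ x m') (h : ℕ → ℤ) (hh : ∀ m ∈ F, (h m).natAbs = m) :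
    Q w α 1 {c | ∀ m ∈ F, ¬ Rch c (x m) 0 (h m)} ≤ ENNReal.ofReal (∏ m ∈ F, (1 - y ^ m)) := by
  have h1 := prod_dep' (cellLaw w α 1) F (fun m => {q : Site 1 × ℕ | q.1 = x m ∧ 0 ≤ q.2}) (fun m hm m' hm' hne => by
      rw [Set.disjoint_left]
      rintro q ⟨h2, -⟩ ⟨h3, -⟩
      exact hx m hm m' hm' hne (h2.symm.trans h3)) (fun m (c : Conf 1) => ¬ Rch c (x m) 0 (h m))
    (fun m _ => (rch_meas' _ _ _).compl) (fun m _ => (rch_dep (x m) 0 (h m)).comp fun v => ¬ v)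
  unfold Q
  rw [h1, ENNReal.ofReal_prod_of_nonneg fun m _ => by
    have := pow_le_one₀ (n := m) hy0 hy1
    linarith]
  refine Finset.prod_le_prod' fun m hm => ?_
  have h2 := rch_prob w α hy0 hy1 hy (x m) 0 (h m)
  rw [hh m hm] at h2
  exact compl_le w α (fun c => Rch c (x m) 0 (h m)) (rch_meas' _ _ _) (pow_nonneg hy0 m) h2

theorem cvu_prob {y : ℝ} (hy0 : 0 ≤ y) (hy1 : y ≤ 1) (hy : y ≤ (1 - w) / 2 * (1 + y ^ 2)) (p : Par) (z : Site 1) (s : Bool)
    (i : ℕ) (t : ℤ) : Q w α 1 {c | ¬ CvU p c z s i t} ≤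
      ENNReal.ofReal (∏ m ∈ (Finset.Icc 1 p.K).filter (fun m : ℕ => ¬ (p.R : ℤ) ∣ -t + m), (1 - y ^ m)) := by
  refine le_trans (measure_mono ?_) (none_prob w α hy0 hy1 hy _ (fun m => P z s i (t - m)) ?_ (fun m => sg s * m) ?_)
  · intro c hc m hm hr
    rw [Finset.mem_filter, Finset.mem_Icc] at hm
    refine hc ⟨m, by exact_mod_cast hm.1.1, by exact_mod_cast hm.1.2, ?_, hr⟩
    intro h1
    refine hm.2 ?_
    have h2 := (dvd_neg (a := (p.R : ℤ))).2 h1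
    rwa [show -(t - (m : ℤ)) = -t + m by ring] at h2
  · intro m _ m' _ hne h1
    have h2 := (P_inj h1).2
    omega
  · intro m _
    rcases sg_cases s with h1 | h1
    · rw [h1]
      omega
    · rw [h1]
      omega

theorem cvd_prob {y : ℝ} (hy0 : 0 ≤ y) (hy1 : y ≤ 1) (hy : y ≤ (1 - w) / 2 * (1 + y ^ 2)) (p : Par) (z : Site 1) (s : Bool)
    (i : ℕ) (t : ℤ) : Q w α 1 {c | ¬ CvD p c z s i t} ≤
      ENNReal.ofReal (∏ m ∈ (Finset.Icc 1 p.K).filter (fun m : ℕ => ¬ (p.R : ℤ) ∣ t + m), (1 - y ^ m)) := by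
  refine le_trans (measure_mono ?_) (none_prob w α hy0 hy1 hy _ (fun m => P z s i (t + m)) ?_ (fun m => -(sg s * m)) ?_)
  · intro c hc m hm hr
    rw [Finset.mem_filter, Finset.mem_Icc] at hm
    exact hc ⟨m, by exact_mod_cast hm.1.1, by exact_mod_cast hm.1.2, hm.2, hr⟩
  · intro m _ m' _ hne h1
    have h2 := (P_inj h1).2
    omega
  · intro m _
    rcases sg_cases s with h1 | h1
    · rw [h1]
      omega
    · rw [h1]
      omega

/-- the parameters from `N'`, `K'`, `R` -/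
def mkPar (N K R : ℕ) (hK : 1 ≤ K) (hN : 2 * K ≤ N) (hR : 2 ≤ R) : Par where
  N := R * N
  K := R * K
  R := R
  K1 := Nat.mul_pos (by omega) (by omega)
  KN := by
    calc 2 * (R * K) = R * (2 * K) := by ring
      _ ≤ R * N := Nat.mul_le_mul_left R hN
  R2 := hR
  RK := Dvd.intro _ rfl
  RN := Dvd.intro _ rfl

theorem jm_one {y : ℝ} (hy0 : 0 ≤ y) (hy1 : y ≤ 1) (hy : y ≤ (1 - w) / 2 * (1 + y ^ 2)) (x : Site 1) (s b : Bool)
    (K : ℕ) : ENNReal.ofReal ((1 - w) * (w * (1 - α) / 2) / 2 * y ^ K) ≤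
      Q w α 1 {c | c (x, 0) = ([b], (0, s)) ∧ Rch c x 1 (sg s * K)} := by
  have hw0 : 0 < 1 - (w : ℝ) := by linarith [w.2.2]
  have hw1 : 0 < (w : ℝ) := w.2.1
  have ha0 : 0 < 1 - (α : ℝ) := by linarith [α.2.2]
  have ha1 : 0 < (α : ℝ) := α.2.1
  have h1 := prob_and_dep (cellLaw w α 1) (S := {(x, 0)}) (T := {q : Site 1 × ℕ | q.1 = x ∧ 1 ≤ q.2})
    (P := fun c : Conf 1 => c (x, 0) = ([b], (0, s))) (P' := fun c => Rch c x 1 (sg s * K)) (by
      rw [Set.disjoint_singleton_left]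
      rintro ⟨-, h⟩
      exact absurd h (by simp)) (measurableSet_setOfPred.2 (cell_meas _ _)) (rch_meas' _ _ _) (fun c c' hc => by
      show (c (x, 0) = ([b], (0, s))) = (c' (x, 0) = ([b], (0, s)))
      rw [hc (x, 0) rfl]) (rch_dep x 1 (sg s * K))
  have h2 := cell_one w α (x, 0) [b] s
  have h3 : runW w α [b] = (1 - w) * bw w α b := by
    rw [runW_eq, List.map_cons, List.map_nil, List.prod_cons, List.prod_nil, mul_one]
  rw [h3] at h2
  have h4 := rch_prob w α hy0 hy1 hy x 1 (sg s * K)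
  have h5 : (sg s * (K : ℤ)).natAbs = K := by
    rcases sg_cases s with h | h
    · rw [h]
      omega
    · rw [h]
      omega
  rw [h5] at h4
  unfold Q at h2 h4 ⊢
  rw [h1, h2, ENNReal.ofReal_mul (by positivity)]
  refine mul_le_mul' (ENNReal.ofReal_le_ofReal ?_) h4
  have h6 : (w : ℝ) * (1 - α) / 2 ≤ bw w α b := by
    unfold bw
    cases b
    · simp only [Bool.false_eq_true, if_false]
      exact le_rfl
    · simp only [if_true]
      have : (w : ℝ) * (1 - α) ≤ w * (1 + α) := mul_le_mul_of_nonneg_left (by linarith) hw1.le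
      linarith
  have h7 := mul_le_mul_of_nonneg_left h6 hw0.le
  linarith

theorem jm_prob {y : ℝ} (hy0 : 0 ≤ y) (hy1 : y ≤ 1) (hy : y ≤ (1 - w) / 2 * (1 + y ^ 2)) {N K R : ℕ} (hK : 1 ≤ K)
    (hN : 2 * K ≤ N) (hR : 2 ≤ R) (z : Site 1) (s : Bool) (i k : ℕ) (b : Bool) :
    Q w α 1 {c | ¬ Jm (mkPar N K R hK hN hR) c z s i k b} ≤
      ENNReal.ofReal ((1 - (1 - w) * (w * (1 - α) / 2) / 2 * y ^ (R * K)) ^ (N - K - 1)) := by
  have hw0 : 0 < 1 - (w : ℝ) := by linarith [w.2.2]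
  have hw1 : 0 < (w : ℝ) := w.2.1
  have ha0 : 0 < 1 - (α : ℝ) := by linarith [α.2.2]
  have hρ0 : 0 ≤ (1 - (w : ℝ)) * (w * (1 - α) / 2) / 2 * y ^ (R * K) := by
    have := pow_nonneg hy0 (R * K)
    positivity
  have hρ1 : (1 - (w : ℝ)) * (w * (1 - α) / 2) / 2 * y ^ (R * K) ≤ 1 := by
    have h1 := pow_le_one₀ (n := R * K) hy0 hy1
    have h2 : (w : ℝ) * (1 - α) ≤ 1 := mul_le_one₀ w.2.2.le ha0.le (by linarith [α.2.1])
    have h3 : (1 - (w : ℝ)) * (w * (1 - α) / 2) / 2 ≤ 1 := by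
      have h4 : (1 - (w : ℝ)) * (w * (1 - α)) ≤ 1 := mul_le_one₀ (by linarith) (by positivity) h2
      have h5 : (1 - (w : ℝ)) * (w * (1 - α) / 2) / 2 = (1 - (w : ℝ)) * (w * (1 - α)) / 4 := by ring
      linarith
    exact mul_le_one₀ h3 (pow_nonneg hy0 _) h1
  obtain ⟨a, ha⟩ : ∃ a : ℕ → ℤ, ∀ l, a l = ((R * K : ℕ) : ℤ) + k * ((R * N : ℕ) : ℤ) + (R * l + 1 : ℕ) := ⟨_, fun _ => rfl⟩
  have hR0 : (1 : ℤ) ≤ R := by exact_mod_cast (by omega : 1 ≤ R)
  have hainj : ∀ l l', a l = a l' → l = l' := by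
    intro l l' h
    rw [ha, ha] at h
    have h1 : ((R * l + 1 : ℕ) : ℤ) = (R * l' + 1 : ℕ) := by linarith
    have h2 : R * l + 1 = R * l' + 1 := by exact_mod_cast h1
    have h3 : R * l = R * l' := by omega
    exact Nat.eq_of_mul_eq_mul_left (by omega) h3
  have h1 := prod_dep' (cellLaw w α 1) (Finset.range (N - K - 1)) (fun l => {q : Site 1 × ℕ | q.1 = P z s i (a l)})
    (fun l _ l' _ hne => by
      rw [Set.disjoint_left]
      intro q h2 h3
      exact hne (hainj _ _ (P_inj ((h2 : q.1 = _).symm.trans h3)).2))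
    (fun l (c : Conf 1) => ¬ (c (P z s i (a l), 0) = ([b], (0, s)) ∧ Rch c (P z s i (a l)) 1 (sg s * (R * K : ℕ))))
    (fun l _ => ((measurableSet_setOfPred.2 (cell_meas _ _)).inter (rch_meas' _ _ _)).compl) (fun l _ c c' hc => by
      have h2 : c (P z s i (a l), 0) = c' (P z s i (a l), 0) := hc _ rfl
      have h3 : Rch c (P z s i (a l)) 1 (sg s * (R * K : ℕ)) = Rch c' (P z s i (a l)) 1 (sg s * (R * K : ℕ)) :=
        rch_dep _ _ _ c c' fun q hq => hc q hq.1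
      show (¬ (c (P z s i (a l), 0) = ([b], (0, s)) ∧ Rch c (P z s i (a l)) 1 (sg s * (R * K : ℕ)))) =
        ¬ (c' (P z s i (a l), 0) = ([b], (0, s)) ∧ Rch c' (P z s i (a l)) 1 (sg s * (R * K : ℕ)))
      rw [h2, h3])
  have h4 : {c | ¬ Jm (mkPar N K R hK hN hR) c z s i k b} ⊆ {c : Conf 1 | ∀ l ∈ Finset.range (N - K - 1),
      ¬ (c (P z s i (a l), 0) = ([b], (0, s)) ∧ Rch c (P z s i (a l)) 1 (sg s * (R * K : ℕ)))} := by
    rintro c hc l hl ⟨h5, h6⟩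
    rw [Finset.mem_range] at hl
    refine hc ⟨a l, ?_, ?_, ?_, h5, h6⟩
    · rw [ha]
      show ((R * K : ℕ) : ℤ) + k * ((R * N : ℕ) : ℤ) ≤ _
      have := Int.natCast_nonneg (R * l + 1)
      linarith
    · rw [ha]
      show _ < ((k : ℤ) + 1) * ((R * N : ℕ) : ℤ)
      have h7 : R * K + (R * l + 1) + 1 < R * N := by
        have h8 : R * (K + l + 2) ≤ R * N := Nat.mul_le_mul_left R (by omega)
        have h9 : R * (K + l + 2) = R * K + R * l + R * 2 := by ring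
        omega
      have h8 : ((R * K : ℕ) : ℤ) + ((R * l + 1 : ℕ) : ℤ) + 1 < ((R * N : ℕ) : ℤ) := by exact_mod_cast h7
      have e1 : ((k : ℤ) + 1) * ((R * N : ℕ) : ℤ) = k * ((R * N : ℕ) : ℤ) + ((R * N : ℕ) : ℤ) := by ring
      linarith
    · intro h7
      have h7' : (R : ℤ) ∣ a l := h7
      rw [ha] at h7'
      have h8 : (R : ℤ) ∣ 1 := by
        have h9 : (R : ℤ) ∣ ((R * K : ℕ) : ℤ) + k * ((R * N : ℕ) : ℤ) + (R * l : ℕ) := by
          push_cast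
          exact dvd_add (dvd_add (Dvd.intro _ rfl) (Dvd.dvd.mul_left (Dvd.intro _ rfl) _)) (Dvd.intro _ rfl)
        have h10 := dvd_sub h7' h9
        have h11 : ((R * K : ℕ) : ℤ) + k * ((R * N : ℕ) : ℤ) + (R * l + 1 : ℕ) -
            (((R * K : ℕ) : ℤ) + k * ((R * N : ℕ) : ℤ) + (R * l : ℕ)) = 1 := by
          push_cast
          ring
        rwa [h11] at h10
      have h9 := Int.le_of_dvd one_pos h8
      have h10 : (2 : ℤ) ≤ R := by exact_mod_cast hR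
      linarith
  refine (measure_mono h4).trans ?_
  unfold Q
  rw [h1, ENNReal.ofReal_pow (by linarith), ← Finset.card_range (N - K - 1), ← Finset.prod_const, Finset.card_range]
  refine Finset.prod_le_prod' fun l _ => ?_
  have h5 := jm_one w α hy0 hy1 hy (P z s i (a l)) s b (R * K)
  exact compl_le w α (fun c => c (P z s i (a l), 0) = ([b], (0, s)) ∧ Rch c (P z s i (a l)) 1 (sg s * (R * K : ℕ)))
    ((measurableSet_setOfPred.2 (cell_meas _ _)).inter (rch_meas' _ _ _)) hρ0 h5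

/-- **The finite-volume criterion from the inequalities for the parameters.** -/
theorem fv_of {y : ℝ} (hy0 : 0 ≤ y) (hy1 : y ≤ 1) (hy : y ≤ (1 - w) / 2 * (1 + y ^ 2)) {N K R : ℕ} (hK : 1 ≤ K)
    (hN : 2 * K ≤ N) (hR : 2 ≤ R)
    (ha : ∀ h : ℤ, 2 * ((R * N : ℕ) : ℝ) *
      ∏ m ∈ (Finset.Icc 1 (R * K)).filter (fun m : ℕ => ¬ (R : ℤ) ∣ h + m), (1 - y ^ m) ≤ 1 / 400000)
    (hb : 2 * (1 - (1 - w) * (w * (1 - α) / 2) / 2 * y ^ (R * K)) ^ (N - K - 1) ≤ 1 / 400000) :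
    FV w α (mkPar N K R hK hN hR) := by
  refine ⟨fun z s x => ?_⟩
  obtain ⟨p, hp⟩ : ∃ p, p = mkPar N K R hK hN hR := ⟨_, rfl⟩
  have hpN : p.N = R * N := by rw [hp]; rfl
  have hpK : p.K = R * K := by rw [hp]; rfl
  have hpR : p.R = R := by rw [hp]; rfl
  obtain ⟨I, hI⟩ : ∃ I : Finset ℤ, I = Finset.Ico ((p.K : ℤ) + x.2 * p.N) ((p.K : ℤ) + (x.2 + 1) * p.N) := ⟨_, rfl⟩
  have hIc : I.card = p.N := by
    rw [hI, Int.card_Ico]
    have e1 : (p.K : ℤ) + ((x.2 : ℤ) + 1) * p.N - ((p.K : ℤ) + x.2 * p.N) = p.N := by ring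
    rw [e1, Int.toNat_natCast]
  have hNpos : (0 : ℝ) < ((R * N : ℕ) : ℝ) := by
    have : 0 < R * N := Nat.mul_pos (by omega) (by omega)
    exact_mod_cast this
  obtain ⟨A, hA⟩ : ∃ A : ℝ, A = 1 / 400000 / (2 * ((R * N : ℕ) : ℝ)) := ⟨_, rfl⟩
  have ha' : ∀ h : ℤ, ∏ m ∈ (Finset.Icc 1 (R * K)).filter (fun m : ℕ => ¬ (R : ℤ) ∣ h + m), (1 - y ^ m) ≤ A := by
    intro h
    rw [hA, le_div_iff₀ (by positivity), mul_comm]
    exact ha h
  have hsub : {c : Conf 1 | ¬ Good p z s c x} ⊆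
      (⋃ t ∈ I, ({c | ¬ CvU p c z s x.1 t} ∪ {c | ¬ CvD p c z s x.1 t})) ∪ ⋃ b : Bool, {c | ¬ Jm p c z s x.1 x.2 b} := by
    intro c hc
    by_contra hcon
    rw [Set.mem_union, not_or] at hcon
    obtain ⟨h1, h2⟩ := hcon
    refine hc ⟨fun t ht => ?_, fun b => ?_⟩
    · have htI : t ∈ I := by
        rw [hI, Finset.mem_Ico]
        exact ht
      by_contra h3
      rw [not_and_or] at h3
      refine h1 (Set.mem_iUnion₂.2 ⟨t, htI, ?_⟩)
      rcases h3 with h3 | h3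
      · exact Or.inl h3
      · exact Or.inr h3
    · by_contra h3
      exact h2 (Set.mem_iUnion.2 ⟨b, h3⟩)
  rw [← hp]
  refine (measure_mono hsub).trans ((measure_union_le _ _).trans ?_)
  have h1 : Q w α 1 (⋃ t ∈ I, ({c | ¬ CvU p c z s x.1 t} ∪ {c | ¬ CvD p c z s x.1 t})) ≤ ENNReal.ofReal (1 / 400000) := by
    calc Q w α 1 (⋃ t ∈ I, ({c | ¬ CvU p c z s x.1 t} ∪ {c | ¬ CvD p c z s x.1 t}))
        ≤ ∑ t ∈ I, Q w α 1 ({c | ¬ CvU p c z s x.1 t} ∪ {c | ¬ CvD p c z s x.1 t}) := measure_biUnion_finset_le _ _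
      _ ≤ ∑ _t ∈ I, ENNReal.ofReal (2 * A) := by
          refine Finset.sum_le_sum fun t _ => (measure_union_le _ _).trans ?_
          have h2 := cvu_prob w α hy0 hy1 hy p z s x.1 t
          have h3 := cvd_prob w α hy0 hy1 hy p z s x.1 t
          rw [hpK, hpR] at h2 h3
          have hA0 : 0 ≤ A := by
            rw [hA]
            positivity
          rw [show 2 * A = A + A by ring, ENNReal.ofReal_add hA0 hA0]
          exact add_le_add (h2.trans (ENNReal.ofReal_le_ofReal (ha' _))) (h3.trans (ENNReal.ofReal_le_ofReal (ha' _)))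
      _ = ENNReal.ofReal (1 / 400000) := by
          rw [Finset.sum_const, hIc, nsmul_eq_mul, ← ENNReal.ofReal_natCast, ← ENNReal.ofReal_mul (Nat.cast_nonneg _), hpN, hA]
          congr 1
          field_simp
  have h2 : Q w α 1 (⋃ b : Bool, {c | ¬ Jm p c z s x.1 x.2 b}) ≤ ENNReal.ofReal (1 / 400000) := by
    calc Q w α 1 (⋃ b : Bool, {c | ¬ Jm p c z s x.1 x.2 b}) ≤ ∑ b : Bool, Q w α 1 {c | ¬ Jm p c z s x.1 x.2 b} :=
          measure_iUnion_fintype_le _ _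
      _ ≤ ∑ _b : Bool, ENNReal.ofReal ((1 - (1 - w) * (w * (1 - α) / 2) / 2 * y ^ (R * K)) ^ (N - K - 1)) :=
          Finset.sum_le_sum fun b _ => by
            rw [hp]
            exact jm_prob w α hy0 hy1 hy hK hN hR z s x.1 x.2 b
      _ = ENNReal.ofReal (2 * (1 - (1 - w) * (w * (1 - α) / 2) / 2 * y ^ (R * K)) ^ (N - K - 1)) := by
          rw [Finset.sum_const, Finset.card_univ, Fintype.card_bool, nsmul_eq_mul, ENNReal.ofReal_mul (by norm_num)]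
          simp
      _ ≤ _ := ENNReal.ofReal_le_ofReal hb
  calc _ ≤ ENNReal.ofReal (1 / 400000) + ENNReal.ofReal (1 / 400000) := add_le_add h1 h2
    _ = ENNReal.ofReal (1 / 400000 + 1 / 400000) := (ENNReal.ofReal_add (by norm_num) (by norm_num)).symm
    _ ≤ _ := ENNReal.ofReal_le_ofReal (by norm_num)

end FDr.CB
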