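import Pool.Agent.Lib.MP_e029a2_pr.CO.Mass
import Pool.Agent.Lib.MP_e029a2_pr.CB.Dep

/-!
# The mass of one return frog per block
-/

set_option autoImplicit false

namespace FDr.CB

open MeasureTheory ProbabilityTheory
open scoped ENNReal

theorem gam_harnack (w α : Set.Ioo (0 : ℝ) 1) (h : ℤ) (v : Fin 1 → ℤ) (d : Dir 1) :
    dispP w α 0 * (2 : ℝ≥0∞)⁻¹ * Gam w α 1 h (v - dv d) ≤ Gam w α 1 h v := by
  unfold Gam
  rw [← ENNReal.tsum_mul_left]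
  have h1 : ∀ j : ℕ, dispP w α 0 * (2 : ℝ≥0∞)⁻¹ * (hz w α j h * srw 1 j (v - dv d)) ≤
      hz w α (j + 1) h * srw 1 (j + 1) v := by
    intro j
    have h2 := hz_succ_ge w α j h 0
    rw [add_zero] at h2
    have h3 : (2 : ℝ≥0∞)⁻¹ * srw 1 j (v - dv d) ≤ srw 1 (j + 1) v := by
      show _ ≤ ∑ d : Dir 1, (2 * ((1 : ℕ) : ℝ≥0∞))⁻¹ * srw 1 j (v - dv d)
      have h4 := Finset.single_le_sum (f := fun d : Dir 1 => (2 * ((1 : ℕ) : ℝ≥0∞))⁻¹ * srw 1 j (v - dv d))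
        (fun _ _ => zero_le) (Finset.mem_univ d)
      refine le_trans (le_of_eq ?_) h4
      simp
    calc dispP w α 0 * (2 : ℝ≥0∞)⁻¹ * (hz w α j h * srw 1 j (v - dv d))
        = (dispP w α 0 * hz w α j h) * ((2 : ℝ≥0∞)⁻¹ * srw 1 j (v - dv d)) := by ring
      _ ≤ _ := mul_le_mul' h2 h3
  refine (ENNReal.tsum_le_tsum h1).trans ?_
  exact ENNReal.tsum_comp_le_tsum_of_injective (Nat.succ_injective) fun j => hz w α j h * srw 1 j v

/-- the constant of the Harnack inequality -/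
noncomputable def hc (w α : Set.Ioo (0 : ℝ) 1) : ℝ≥0∞ := (dispP w α 0 * (2 : ℝ≥0∞)⁻¹)⁻¹

theorem dispP_le_one (w α : Set.Ioo (0 : ℝ) 1) (k : ℤ) : dispP w α k ≤ 1 := prob_le_one

theorem hc_top (w α : Set.Ioo (0 : ℝ) 1) : hc w α ≠ ⊤ := by
  unfold hc
  rw [Ne, ENNReal.inv_eq_top, mul_eq_zero, not_or]
  exact ⟨(dispP_pos w α 0).ne', by simp⟩

theorem one_le_hc (w α : Set.Ioo (0 : ℝ) 1) : 1 ≤ hc w α := by
  unfold hc
  rw [ENNReal.one_le_inv]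
  calc dispP w α 0 * (2 : ℝ≥0∞)⁻¹ ≤ 1 * 1 := mul_le_mul' (dispP_le_one w α 0) (by simp)
    _ = 1 := one_mul 1

theorem gam_step (w α : Set.Ioo (0 : ℝ) 1) (h : ℤ) (v : Fin 1 → ℤ) (d : Dir 1) :
    Gam w α 1 h (v - dv d) ≤ hc w α * Gam w α 1 h v := by
  have h1 := gam_harnack w α h v d
  have h2 : dispP w α 0 * (2 : ℝ≥0∞)⁻¹ ≠ 0 := mul_ne_zero (dispP_pos w α 0).ne' (by simp)
  have h3 : dispP w α 0 * (2 : ℝ≥0∞)⁻¹ ≠ ⊤ :=
    ENNReal.mul_ne_top (ne_top_of_le_ne_top ENNReal.one_ne_top (dispP_le_one w α 0)) (by simp)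
  calc Gam w α 1 h (v - dv d) = hc w α * (dispP w α 0 * (2 : ℝ≥0∞)⁻¹ * Gam w α 1 h (v - dv d)) := by
        unfold hc
        rw [← mul_assoc, ENNReal.inv_mul_cancel h2 h3, one_mul]
    _ ≤ _ := mul_le_mul_right h1 _

/-- the function of the vertical coordinate -/
noncomputable def gg (w α : Set.Ioo (0 : ℝ) 1) (h : ℤ) (v : Fin 1 → ℤ) (s : Bool) (t : ℕ) : ℝ≥0∞ :=
  Gam w α 1 h (-(CO.pt v (fun _ => s) fun _ => t))

theorem gg_succ (w α : Set.Ioo (0 : ℝ) 1) (h : ℤ) (v : Fin 1 → ℤ) (s : Bool) (t : ℕ) :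
    gg w α h v s (t + 1) ≤ hc w α * gg w α h v s t := by
  have h1 : -(CO.pt v (fun _ => s) fun _ => t + 1) = -(CO.pt v (fun _ => s) fun _ => t) - dv ((0, s) : Dir 1) := by
    funext i
    rw [dv_one]
    show -(v i + sg s * ((t + 1 : ℕ) : ℤ)) = -(v i + sg s * (t : ℤ)) - sg s
    push_cast
    ring
  unfold gg
  rw [h1]
  exact gam_step w α h _ _

theorem gg_add (w α : Set.Ioo (0 : ℝ) 1) (h : ℤ) (v : Fin 1 → ℤ) (s : Bool) (a t : ℕ) :
    gg w α h v s (a + t) ≤ hc w α ^ t * gg w α h v s a := by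
  induction t with
  | zero => rw [add_zero, pow_zero, one_mul]
  | succ t ih =>
    rw [← add_assoc]
    refine (gg_succ w α h v s (a + t)).trans ?_
    calc hc w α * gg w α h v s (a + t) ≤ hc w α * (hc w α ^ t * gg w α h v s a) := mul_le_mul_right ih _
      _ = _ := by rw [pow_succ]; ring

/-- **The sparse mass.** -/
theorem mass_sparse (w α : Set.Ioo (0 : ℝ) 1) (N : ℕ) (hN : 1 ≤ N) : ∃ c : ℝ, 0 < c ∧ ∀ (v : Fin 1 → ℤ) (s : Bool),
    ∃ m0 : ℕ, ∀ m : ℕ, m0 ≤ m → ENNReal.ofReal c ≤ ∑' k : ℕ, gg w α m v s (N * k) := by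
  obtain ⟨c, hc0, hmass⟩ := CO.mass_ge w α 1
  obtain ⟨C, hC⟩ : ∃ C : ℝ≥0∞, C = (N : ℝ≥0∞) * hc w α ^ N := ⟨_, rfl⟩
  have hCt : C ≠ ⊤ := by
    rw [hC]
    exact ENNReal.mul_ne_top (ENNReal.natCast_ne_top N) (ENNReal.pow_ne_top (hc_top w α))
  have hC1 : 1 ≤ C := by
    rw [hC]
    calc (1 : ℝ≥0∞) = 1 * 1 := (one_mul 1).symm
      _ ≤ _ := mul_le_mul' (by exact_mod_cast hN) (one_le_pow₀ (one_le_hc w α))
  have hC0 : C ≠ 0 := (lt_of_lt_of_le one_pos hC1).ne'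
  have hCr : 0 < C.toReal := ENNReal.toReal_pos hC0 hCt
  refine ⟨c / C.toReal, by positivity, fun v s => ?_⟩
  obtain ⟨m0, hm0⟩ := hmass v fun _ => s
  refine ⟨m0, fun m hm => ?_⟩
  have h1 := hm0 m hm
  have h2 : ∑' u : Fin 1 → ℕ, Gam w α 1 m (-(CO.pt v (fun _ => s) u)) = ∑' t : ℕ, gg w α m v s t := by
    rw [← (Equiv.funUnique (Fin 1) ℕ).symm.tsum_eq]
    refine tsum_congr fun t => ?_
    rfl
  have hN0 : NeZero N := ⟨by omega⟩
  have h3 : ∑' t : ℕ, gg w α m v s t ≤ C * ∑' k : ℕ, gg w α m v s (N * k) := by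
    rw [← (Nat.divModEquiv N).symm.tsum_eq, ENNReal.tsum_prod', ← ENNReal.tsum_mul_left]
    refine ENNReal.tsum_le_tsum fun k => ?_
    rw [tsum_fintype]
    have h4 : ∀ t : Fin N, gg w α m v s ((Nat.divModEquiv N).symm (k, t)) ≤ hc w α ^ N * gg w α m v s (N * k) := by
      intro t
      have h5 : (Nat.divModEquiv N).symm (k, t) = N * k + t := by
        show k * N + (t : ℕ) = N * k + t
        rw [mul_comm]
      rw [h5]
      refine (gg_add w α m v s (N * k) t).trans (mul_le_mul_left ?_ _)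
      exact pow_le_pow_right₀ (one_le_hc w α) t.2.le
    refine (Finset.sum_le_sum fun t _ => h4 t).trans (le_of_eq ?_)
    rw [Finset.sum_const, Finset.card_univ, Fintype.card_fin, nsmul_eq_mul, hC]
    ring
  rw [h2] at h1
  rw [ENNReal.ofReal_div_of_pos hCr, ENNReal.ofReal_toReal hCt]
  refine ENNReal.div_le_of_le_mul ?_
  rw [mul_comm]
  exact h1.trans h3

end FDr.CB
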