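import Pool.Agent.Lib.MP_e029a2_pr.CO.SumC
import Pool.Agent.Lib.MP_e029a2_pr.CO.Tot

/-!
# The parameters for the corner `α → 1` in dimension two, recurrent side (only Mathlib, `SumC`, `Tot`)

`L = -log (1 - α) → ∞` (for `α → 1-`; `1 - α = exp (-L)`), `w = γ / L²`, `s = √(2γ)`, `√(2w) = s / L`, `y = 1 - s/L`, `μ = -log y`,
`κ = π² / (6 s) > 1` (because `2γ < π⁴/36`).
TEMPLATE: the finished file `/team-store/MP_e029a2_pr_CO_Params.lean` proves the same kind of statement with the same two lemmas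
(`FDr.CO.sum_class`, `FDr.CO.tot_ge`, both here with their proofs); adapt it.
Choose reals `1 < κ' < κ'' < κ`, then `A > 0` (real), `R ≥ 2`, `M ≥ 1` (natural) and `θ ∈ (0,1)` with
`θ (1 - 1/R) (1 - exp (-A s)) (∑_{n ≤ M} 1/n²) / s > κ''` (possible: `∑ 1/n² = π²/6`: `hasSum_zeta_two`; the left side tends to `κ`).
`K = ⌈A L⌉₊` (so `R K ≥ A L`; also `R K ≤ R (A L + 1)`), `N = ⌈exp (κ' L)⌉₊`.  All statements hold eventually for `L → ∞`
(work with `Filter.Eventually` in `L` at `atTop`, then `α₀ = max (1 - exp (-L₀)) (1/2)`).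
(0) `0 < w`, `2 w < 1`, `1 ≤ K`, `2 K ≤ N` (`2 (A L + 1) ≤ exp (κ' L)` eventually).
(1) `s/L ≤ μ ≤ (s/L) (1 + s/L) ` eventually (`Real.add_one_le_exp`, `-log (1-t) ≤ t + t²` for `0 ≤ t ≤ 1/2`: for instance
`-log (1-t) ≤ t/(1-t)`), so `y^(R K) = exp (-μ R K) ≤ exp (-s A)`, and `y^M → 1`, and `1/μ ≥ (L/s) (1 - s/L)`.
(2) `tot_ge` with `x := y`, `K := R K`: `Tot := ∑_{m ≤ RK} -log (1-y^m) ≥ (1 - exp (-A s)) y^M (1/μ) ∑_{n≤M} 1/n² ≥ θ (..) L` so that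
`(1 - 1/R) Tot ≥ κ'' L` eventually.
(3) `sum_class` with `a m = -log (1 - y^m)` for `m ≥ 1` and `a 0 = 0`, and `K := R K`: for each `h` the sum over `m ∈ [1, RK]`, `¬ R ∣ h + m`,
is at least `(1 - 1/R) Tot - a 1`, `a 1 = -log (s/L) = log (L/s)`.  Hence
`2 R N ∏ (1 - y^m) = 2 R N exp (-∑) ≤ 2 R (exp (κ' L) + 1) (L/s) exp (-(κ'' L)) → 0`.
(4) `y^(RK) = exp (-μ R K) ≥ exp (-(s/L)(1+s/L) R (A L + 1)) ≥ c > 0` (eventually, `c = exp (-2 R A s - 1)` say);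
`ρ = (1-w) (w (1-α)/2)/2 y^(RK) ≥ (γ c / 8) L⁻² exp (-L)`, `0 ≤ ρ ≤ 1`, `N - K - 1 ≥ exp (κ' L)/2` (natural subtraction, eventually), so
`(1-ρ)^(N-K-1) ≤ exp (-ρ (N-K-1))` and `ρ (N-K-1) ≥ (γ c/16) L⁻² exp ((κ'-1) L) → ∞`.
-/

set_option autoImplicit false

namespace FDr.CB

open Filter Topology

private theorem CBP_tt (a : ℝ) (ha : 0 < a) : Tendsto (fun t : ℝ => a / t) (𝓝[>] 0) atTop := by
  have h1 : Tendsto (fun t : ℝ => a * t⁻¹) (𝓝[>] 0) atTop :=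
    (tendsto_inv_nhdsGT_zero (𝕜 := ℝ)).const_mul_atTop ha
  exact h1.congr (fun t => (div_eq_mul_inv a t).symm)

private theorem CBP_exp (a : ℝ) (ha : 0 < a) (j : ℕ) :
    Tendsto (fun t : ℝ => Real.exp (-(a / t)) / t ^ j) (𝓝[>] 0) (𝓝 0) := by
  have h1 := (Real.tendsto_pow_mul_exp_neg_atTop_nhds_zero j).comp (CBP_tt a ha)
  have h2 := h1.const_mul ((a ^ j)⁻¹)
  rw [mul_zero] at h2
  refine h2.congr (fun t => ?_)
  change (a ^ j)⁻¹ * ((a / t) ^ j * Real.exp (-(a / t))) = _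
  have h3 : a ^ j ≠ 0 := pow_ne_zero _ ha.ne'
  calc (a ^ j)⁻¹ * ((a / t) ^ j * Real.exp (-(a / t))) =
        ((a ^ j)⁻¹ * a ^ j) * (Real.exp (-(a / t)) / t ^ j) := by rw [div_pow]; ring
    _ = _ := by rw [inv_mul_cancel₀ h3, one_mul]

/-- choice of `A = R = M = j` -/
private theorem CBP_choice (s k : ℝ) (hs : 0 < s) (h : k < Real.pi ^ 2 / (6 * s)) : ∃ j : ℕ, 2 ≤ j ∧
    k < (1 - 1 / (j : ℝ)) * ((1 - Real.exp (-(s * j))) * (1 - 1 / (j : ℝ)) *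
      (∑ n ∈ Finset.Icc 1 j, 1 / (n : ℝ) ^ 2) / s) := by
  have h1 : Tendsto (fun M : ℕ => ∑ n ∈ Finset.range M, 1 / (n : ℝ) ^ 2) atTop (𝓝 (Real.pi ^ 2 / 6)) :=
    hasSum_zeta_two.tendsto_sum_nat
  have h1' : Tendsto (fun M : ℕ => ∑ n ∈ Finset.range (M + 1), 1 / (n : ℝ) ^ 2) atTop (𝓝 (Real.pi ^ 2 / 6)) :=
    (tendsto_add_atTop_iff_nat 1).2 h1
  have h2 : Tendsto (fun M : ℕ => 1 - 1 / (M : ℝ)) atTop (𝓝 (1 - 0)) :=
    tendsto_const_nhds.sub tendsto_one_div_atTop_nhds_zero_nat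
  have h2' : Tendsto (fun M : ℕ => 1 - Real.exp (-(s * M))) atTop (𝓝 (1 - 0)) := by
    refine tendsto_const_nhds.sub ?_
    have h3 : Tendsto (fun M : ℕ => s * (M : ℝ)) atTop atTop := tendsto_natCast_atTop_atTop.const_mul_atTop hs
    exact Real.tendsto_exp_atBot.comp (tendsto_neg_atTop_atBot.comp h3)
  have h3 : Tendsto (fun M : ℕ => (1 - 1 / (M : ℝ)) * ((1 - Real.exp (-(s * M))) * (1 - 1 / (M : ℝ)) *
      (∑ n ∈ Finset.range (M + 1), 1 / (n : ℝ) ^ 2) / s)) atTop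
      (𝓝 ((1 - 0) * ((1 - 0) * (1 - 0) * (Real.pi ^ 2 / 6) / s))) :=
    h2.mul (((h2'.mul h2).mul h1').div_const s)
  have h4 : k < (1 - 0) * ((1 - 0) * (1 - 0) * (Real.pi ^ 2 / 6) / s) := by
    have h5 : (1 - 0) * ((1 - 0) * (1 - 0) * (Real.pi ^ 2 / 6) / s) = Real.pi ^ 2 / (6 * s) := by
      field_simp
      ring
    rw [h5]
    exact h
  obtain ⟨j, hj, hj2⟩ := ((h3.eventually (lt_mem_nhds h4)).and (eventually_ge_atTop 2)).exists
  have h7 : ∑ n ∈ Finset.Icc 1 j, 1 / (n : ℝ) ^ 2 = ∑ n ∈ Finset.range (j + 1), 1 / (n : ℝ) ^ 2 := by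
    refine Finset.sum_subset ?_ ?_
    · intro n hn
      rw [Finset.mem_Icc] at hn
      exact Finset.mem_range.2 (by omega)
    · intro n hn hn2
      rw [Finset.mem_range] at hn
      rw [Finset.mem_Icc] at hn2
      have h8 : n = 0 := by omega
      subst h8
      norm_num
  refine ⟨j, hj2, ?_⟩
  rw [h7]
  exact hj

/-- lower bound of the factor in `tot_ge` for `x = 1 - δ` -/
private theorem CBP_tot {δ θ e : ℝ} {k M : ℕ} (hδ0 : 0 < δ) (hδ1 : δ ≤ 1 / 2) (hθ : θ ≤ (1 - (M : ℝ) * δ) * (1 - δ))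
    (hθ0 : 0 ≤ θ) (he : (1 - δ) ^ k ≤ e) (he1 : e ≤ 1) :
    (1 - e) * θ / δ ≤ (1 - (1 - δ) ^ k) * (1 - δ) ^ M / (-Real.log (1 - δ)) := by
  have hx0 : 0 < 1 - δ := by linarith
  have hx1 : 1 - δ < 1 := by linarith
  have hlog : 0 < -Real.log (1 - δ) := by
    have := Real.log_neg hx0 hx1
    linarith
  have hlog2 : -Real.log (1 - δ) ≤ δ / (1 - δ) := by
    rw [← Real.log_inv]
    have h1 := Real.log_le_sub_one_of_pos (inv_pos.2 hx0)
    refine h1.trans (le_of_eq ?_)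
    field_simp
    ring
  have hxM : 1 - (M : ℝ) * δ ≤ (1 - δ) ^ M := by
    have h1 := one_add_mul_le_pow (a := -δ) (by linarith) M
    have h3 : 1 + (M : ℝ) * -δ = 1 - (M : ℝ) * δ := by ring
    have h4 : 1 + -δ = 1 - δ := by ring
    rw [h3, h4] at h1
    exact h1
  have h1 : θ ≤ (1 - δ) ^ M * (1 - δ) := hθ.trans (mul_le_mul_of_nonneg_right hxM hx0.le)
  have h2 : (1 - e) * θ ≤ (1 - (1 - δ) ^ k) * ((1 - δ) ^ M * (1 - δ)) :=
    mul_le_mul (by linarith) h1 hθ0 (by linarith)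
  rw [div_le_div_iff₀ hδ0 hlog]
  have h3 : 0 ≤ (1 - e) * θ := mul_nonneg (by linarith) hθ0
  have h4 : 0 ≤ (1 - (1 - δ) ^ k) * ((1 - δ) ^ M * (1 - δ)) := h3.trans h2
  calc (1 - e) * θ * -Real.log (1 - δ) ≤ (1 - (1 - δ) ^ k) * ((1 - δ) ^ M * (1 - δ)) * (δ / (1 - δ)) :=
        mul_le_mul h2 hlog2 hlog.le h4
    _ = (1 - (1 - δ) ^ k) * (1 - δ) ^ M * δ := by
        field_simp

private theorem CBP_prod {x α A : ℝ} (hx0 : 0 < x) (hx : x ≤ 1 - α) (hα0 : 0 < α) (R K : ℕ) (hR : 2 ≤ R) (h : ℤ)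
    (hA : A ≤ (1 - 1 / (R : ℝ)) * ∑ m ∈ Finset.Icc 1 K, -Real.log (1 - x ^ m)) :
    ∏ m ∈ (Finset.Icc 1 K).filter (fun m : ℕ => ¬ (R : ℤ) ∣ h + m), (1 - x ^ m) ≤ Real.exp (-A) / α := by
  have hx1 : x < 1 := by linarith
  have hpos : ∀ m : ℕ, 1 ≤ m → 0 < 1 - x ^ m := by
    intro m hm
    have h1 := pow_lt_one₀ hx0.le hx1 (by omega : m ≠ 0)
    linarith
  have h0 : ∀ m : ℕ, 0 ≤ -Real.log (1 - x ^ m) := by
    intro m
    rcases Nat.eq_zero_or_pos m with rfl | hm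
    · rw [pow_zero, sub_self, Real.log_zero, neg_zero]
    · have h1 := Real.log_nonpos (hpos m hm).le (by linarith [pow_nonneg hx0.le m])
      linarith
  have hanti : ∀ m m' : ℕ, 1 ≤ m → m ≤ m' → -Real.log (1 - x ^ m') ≤ -Real.log (1 - x ^ m) := by
    intro m m' hm hmm
    have h1 : x ^ m' ≤ x ^ m := pow_le_pow_of_le_one hx0.le hx1.le hmm
    exact neg_le_neg (Real.log_le_log (hpos m hm) (by linarith))
  have h2 := FDr.CO.sum_class (fun m => -Real.log (1 - x ^ m)) h0 hanti R K hR h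
  have h3 := Finset.sum_filter_add_sum_filter_not (Finset.Icc 1 K) (fun m : ℕ => (R : ℤ) ∣ h + m)
    (fun m => -Real.log (1 - x ^ m))
  have hR' : (0 : ℝ) < R := by exact_mod_cast (by omega : 0 < R)
  have h4 : ∏ m ∈ (Finset.Icc 1 K).filter (fun m : ℕ => ¬ (R : ℤ) ∣ h + m), (1 - x ^ m) =
      Real.exp (-∑ m ∈ (Finset.Icc 1 K).filter (fun m : ℕ => ¬ (R : ℤ) ∣ h + m), -Real.log (1 - x ^ m)) := by
    rw [Finset.sum_neg_distrib, neg_neg, Real.exp_sum]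
    refine Finset.prod_congr rfl fun m hm => ?_
    rw [Real.exp_log (hpos m (Finset.mem_Icc.1 (Finset.mem_filter.1 hm).1).1)]
  have h5 : A - -Real.log (1 - x ^ 1) ≤
      ∑ m ∈ (Finset.Icc 1 K).filter (fun m : ℕ => ¬ (R : ℤ) ∣ h + m), -Real.log (1 - x ^ m) := by
    have h6 : ∑ m ∈ (Finset.Icc 1 K).filter (fun m : ℕ => (R : ℤ) ∣ h + m), -Real.log (1 - x ^ m) ≤
        (1 / (R : ℝ)) * ∑ m ∈ Finset.Icc 1 K, -Real.log (1 - x ^ m) + -Real.log (1 - x ^ 1) := by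
      have h7 := mul_le_mul_of_nonneg_left h2 (by positivity : 0 ≤ 1 / (R : ℝ))
      rw [← mul_assoc, one_div_mul_cancel hR'.ne', one_mul, mul_add, ← mul_assoc, one_div_mul_cancel hR'.ne',
        one_mul] at h7
      exact h7
    have h8 : (1 - 1 / (R : ℝ)) * ∑ m ∈ Finset.Icc 1 K, -Real.log (1 - x ^ m) =
        ∑ m ∈ Finset.Icc 1 K, -Real.log (1 - x ^ m) - (1 / (R : ℝ)) * ∑ m ∈ Finset.Icc 1 K, -Real.log (1 - x ^ m) := by
      ring
    linarith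
  rw [h4]
  have h9 : Real.exp (-Real.log (1 - x ^ 1)) ≤ 1 / α := by
    rw [Real.exp_neg, Real.exp_log (hpos 1 le_rfl), one_div, pow_one]
    exact inv_anti₀ hα0 (by linarith)
  calc Real.exp (-∑ m ∈ (Finset.Icc 1 K).filter (fun m : ℕ => ¬ (R : ℤ) ∣ h + m), -Real.log (1 - x ^ m)) ≤
        Real.exp (-A + -Real.log (1 - x ^ 1)) := Real.exp_le_exp.2 (by linarith)
    _ = Real.exp (-A) * Real.exp (-Real.log (1 - x ^ 1)) := Real.exp_add _ _
    _ ≤ Real.exp (-A) * (1 / α) := mul_le_mul_of_nonneg_left h9 (Real.exp_pos _).le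
    _ = Real.exp (-A) / α := by ring

/-- `(1 - ρ)^n ≤ exp (- ρ n)` -/
private theorem CBP_pow {ρ r z : ℝ} {n : ℕ} (h1 : ρ ≤ 1) (hr : r ≤ ρ) (hn : z ≤ (n : ℝ)) (hr0 : 0 ≤ r) (hz : 0 ≤ z) :
    (1 - ρ) ^ n ≤ Real.exp (-(r * z)) := by
  have h2 : (1 - ρ) ^ n ≤ (Real.exp (-ρ)) ^ n := pow_le_pow_left₀ (by linarith) (Real.one_sub_le_exp_neg ρ) n
  refine h2.trans ?_
  rw [← Real.exp_nat_mul, Real.exp_le_exp]
  have h3 : r * z ≤ ρ * n := mul_le_mul hr hn hz (hr0.trans hr)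
  linarith

/-- the statement in terms of `t = 1 / L` -/
private theorem CBP_main (γ : ℝ) (h0 : 0 < γ) (h1 : γ < Real.pi ^ 4 / 72) :
    ∃ t₀ : ℝ, 0 < t₀ ∧ ∀ t w y b : ℝ, 0 < t → t < t₀ → w = γ * t ^ 2 → y = 1 - √(2 * γ) * t → b = Real.exp (-(1 / t)) →
      0 < w ∧ 2 * w < 1 ∧ ∃ N K R : ℕ, 1 ≤ K ∧ 2 * K ≤ N ∧ 2 ≤ R ∧
        (∀ h : ℤ, 2 * ((R * N : ℕ) : ℝ) *
          ∏ m ∈ (Finset.Icc 1 (R * K)).filter (fun m : ℕ => ¬ (R : ℤ) ∣ h + m), (1 - y ^ m) ≤ 1 / 400000) ∧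
        2 * (1 - (1 - w) * (w * b / 2) / 2 * y ^ (R * K)) ^ (N - K - 1) ≤ 1 / 400000 := by
  obtain ⟨s, hs⟩ : ∃ s : ℝ, s = √(2 * γ) := ⟨_, rfl⟩
  have hs0 : 0 < s := by rw [hs]; exact Real.sqrt_pos.2 (by linarith)
  have hs2 : s ^ 2 = 2 * γ := by rw [hs]; exact Real.sq_sqrt (by linarith)
  have hspi : s < Real.pi ^ 2 / 6 := by
    have h2 : s ^ 2 < (Real.pi ^ 2 / 6) ^ 2 := by
      rw [hs2, div_pow, ← pow_mul]
      norm_num
      linarith
    exact lt_of_pow_lt_pow_left₀ 2 (by positivity) h2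
  have hκ : 1 < Real.pi ^ 2 / (6 * s) := by
    rw [lt_div_iff₀ (by linarith)]
    linarith
  obtain ⟨k, hk1, hk2⟩ := exists_between hκ
  obtain ⟨j, hj2, hj⟩ := CBP_choice s k hs0 hk2
  obtain ⟨A, hA⟩ : ∃ A : ℝ, A = (1 - 1 / (j : ℝ)) * ((1 - Real.exp (-(s * j))) * (1 - 1 / (j : ℝ)) *
      (∑ n ∈ Finset.Icc 1 j, 1 / (n : ℝ) ^ 2) / s) := ⟨_, rfl⟩
  rw [← hA] at hj
  have hjr : (2 : ℝ) ≤ (j : ℝ) := by exact_mod_cast hj2
  have hj0 : 0 < 1 / (j : ℝ) := by positivity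
  have hj1 : 1 / (j : ℝ) ≤ 1 / 2 := one_div_le_one_div_of_le (by norm_num) hjr
  obtain ⟨c, hc⟩ : ∃ c : ℝ, c = Real.exp (-(2 * s * j * (j + 1))) := ⟨_, rfl⟩
  have hc0 : 0 < c := by rw [hc]; exact Real.exp_pos _
  have hid : Tendsto (fun t : ℝ => t) (𝓝[>] 0) (𝓝 0) := tendsto_id.mono_left nhdsWithin_le_nhds
  have hst : Tendsto (fun t : ℝ => s * t) (𝓝[>] 0) (𝓝 0) := by
    have h2 := hid.const_mul s
    rw [mul_zero] at h2
    exact h2
  have e1 : ∀ᶠ t : ℝ in 𝓝[>] 0, s * t ≤ 1 / 2 :=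
    (hst.eventually (gt_mem_nhds (by norm_num : (0:ℝ) < 1 / 2))).mono fun t h => le_of_lt h
  have e2 : ∀ᶠ t : ℝ in 𝓝[>] 0, 1 - 1 / (j : ℝ) ≤ (1 - (j : ℝ) * (s * t)) * (1 - s * t) := by
    have h2 := ((tendsto_const_nhds (x := (1 : ℝ))).sub (hst.const_mul (j : ℝ))).mul
      ((tendsto_const_nhds (x := (1 : ℝ))).sub hst)
    rw [mul_zero, sub_zero, one_mul] at h2
    exact (h2.eventually (lt_mem_nhds (by linarith : 1 - 1 / (j : ℝ) < 1))).mono fun t h => le_of_lt h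
  have e3 : ∀ᶠ t : ℝ in 𝓝[>] 0, 4 * (j : ℝ) / s * (Real.exp (-((A - k) / t)) / t ^ 1) < 1 / 400000 := by
    have h2 := (CBP_exp (A - k) (by linarith) 1).const_mul (4 * (j : ℝ) / s)
    rw [mul_zero] at h2
    exact h2.eventually (gt_mem_nhds (by norm_num))
  have e4 : ∀ᶠ t : ℝ in 𝓝[>] 0, 2 * (j : ℝ) * (Real.exp (-(k / t)) / t ^ 1) + 4 * (Real.exp (-(k / t)) / t ^ 0) < 1 := by
    have h2 := ((CBP_exp k (by linarith) 1).const_mul (2 * (j : ℝ))).add ((CBP_exp k (by linarith) 0).const_mul 4)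
    rw [mul_zero, mul_zero, add_zero] at h2
    exact h2.eventually (gt_mem_nhds (by norm_num))
  have e5 : ∀ᶠ t : ℝ in 𝓝[>] 0, Real.exp (-((k - 1) / t)) / t ^ 2 < γ * c / 16 / 800000 :=
    (CBP_exp (k - 1) (by linarith) 2).eventually (gt_mem_nhds (by positivity))
  have e6 : ∀ᶠ t : ℝ in 𝓝[>] 0, t ≤ 1 :=
    (hid.eventually (gt_mem_nhds (by norm_num : (0:ℝ) < 1))).mono fun t h => le_of_lt h
  have e7 : ∀ᶠ t : ℝ in 𝓝[>] 0, 2 * γ * (t * t) < 1 := by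
    have h2 := (hid.mul hid).const_mul (2 * γ)
    rw [mul_zero, mul_zero] at h2
    exact h2.eventually (gt_mem_nhds (by norm_num))
  have hall := e1.and (e2.and (e3.and (e4.and (e5.and (e6.and e7)))))
  obtain ⟨u₀, hu₀, hsub⟩ := mem_nhdsGT_iff_exists_Ioo_subset.1 hall
  refine ⟨u₀, hu₀, ?_⟩
  intro t w y b ht0 ht hw hy hb
  obtain ⟨f1, f2, f3, f4, f5, f6, f7⟩ := hsub ⟨ht0, ht⟩
  rw [← hs] at hy
  have hw0 : 0 < w := by rw [hw]; positivity
  have hw1 : 2 * w < 1 := by rw [hw]; linarith [f7, show 2 * (γ * t ^ 2) = 2 * γ * (t * t) by ring]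
  have hb0 : 0 < b := by rw [hb]; exact Real.exp_pos _
  have hδ0 : 0 < s * t := mul_pos hs0 ht0
  obtain ⟨K, hK⟩ : ∃ K : ℕ, K = ⌈(j : ℝ) / t⌉₊ := ⟨_, rfl⟩
  obtain ⟨N, hN⟩ : ∃ N : ℕ, N = ⌈Real.exp (k / t)⌉₊ := ⟨_, rfl⟩
  have hEpos : 0 < Real.exp (k / t) := Real.exp_pos _
  have hjt : 0 < (j : ℝ) / t := by positivity
  have hK0 : (j : ℝ) / t ≤ (K : ℝ) := by rw [hK]; exact Nat.le_ceil _
  have hK1 : (K : ℝ) ≤ (j : ℝ) / t + 1 := by rw [hK]; exact (Nat.ceil_lt_add_one hjt.le).le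
  have hN1 : Real.exp (k / t) ≤ (N : ℝ) := by rw [hN]; exact Nat.le_ceil _
  have hE4 : 2 * (j : ℝ) / t + 4 ≤ Real.exp (k / t) := by
    have h2 : 2 * (j : ℝ) * (Real.exp (-(k / t)) / t ^ 1) + 4 * (Real.exp (-(k / t)) / t ^ 0) =
        (2 * (j : ℝ) / t + 4) / Real.exp (k / t) := by
      rw [Real.exp_neg, pow_one, pow_zero]
      field_simp
    rw [h2, div_lt_one hEpos] at f4
    exact f4.le
  have hN2 : (N : ℝ) ≤ 2 * Real.exp (k / t) := by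
    rw [hN]
    have h2 := Nat.ceil_lt_add_one hEpos.le
    have h3 : 0 ≤ 2 * (j : ℝ) / t := by positivity
    linarith
  have hj2t : 2 * (j : ℝ) / t = 2 * ((j : ℝ) / t) := by ring
  have hKN : 2 * K ≤ N := by
    have h2 : 2 * (K : ℝ) ≤ (N : ℝ) := by linarith
    exact_mod_cast h2
  have hNK : Real.exp (k / t) / 2 ≤ ((N - K - 1 : ℕ) : ℝ) := by
    have h2 : (N : ℝ) ≤ ((N - K - 1 : ℕ) : ℝ) + K + 1 := by
      have h3 : N ≤ (N - K - 1) + K + 1 := by omega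
      exact_mod_cast h3
    linarith
  have hKpos : 1 ≤ K := by
    rw [hK]
    exact Nat.one_le_iff_ne_zero.2 (Nat.ceil_pos.2 hjt).ne'
  refine ⟨hw0, hw1, N, K, j, hKpos, hKN, hj2, ?_, ?_⟩
  · intro h
    have hpw : (1 - s * t) ^ (j * K) ≤ Real.exp (-(s * j)) := by
      have h2 : (1 - s * t) ^ (j * K) ≤ (Real.exp (-(s * t))) ^ (j * K) :=
        pow_le_pow_left₀ (by linarith) (Real.one_sub_le_exp_neg (s * t)) _
      refine h2.trans ?_
      rw [← Real.exp_nat_mul, Real.exp_le_exp]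
      push_cast
      have h3 : (j : ℝ) ≤ t * K := by
        have h4 := mul_le_mul_of_nonneg_left hK0 ht0.le
        rw [mul_div_cancel₀ _ ht0.ne'] at h4
        exact h4
      have h5 : s * j ≤ s * (t * K) := mul_le_mul_of_nonneg_left h3 hs0.le
      have h6 : 0 ≤ s * (t * K) := by positivity
      have h7 : s * (t * K) ≤ j * (s * (t * K)) := by nlinarith
      have h8 : (j : ℝ) * K * -(s * t) = -(j * (s * (t * K))) := by ring
      rw [h8]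
      linarith
    have hexp1 : Real.exp (-(s * j)) ≤ 1 := Real.exp_le_one_iff.2 (by nlinarith)
    have h2 := CBP_tot (M := j) hδ0 f1 f2 (by linarith) hpw hexp1
    have h3 := FDr.CO.tot_ge (x := 1 - s * t) (by linarith) (by linarith) (j * K) j
    have hS0 : 0 ≤ ∑ n ∈ Finset.Icc 1 j, 1 / (n : ℝ) ^ 2 := Finset.sum_nonneg fun n _ => by positivity
    have h4 := (mul_le_mul_of_nonneg_right h2 hS0).trans h3
    have h5 := mul_le_mul_of_nonneg_left h4 (by linarith : 0 ≤ 1 - 1 / (j : ℝ))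
    have h6 : A / t ≤ (1 - 1 / (j : ℝ)) * ∑ m ∈ Finset.Icc 1 (j * K), -Real.log (1 - (1 - s * t) ^ m) := by
      refine le_trans (le_of_eq ?_) h5
      rw [hA]
      field_simp
    have h7 := CBP_prod (x := 1 - s * t) (α := s * t) (by linarith) le_rfl hδ0 j (j * K) hj2 h h6
    rw [← hy] at h7
    have h8 : (0 : ℝ) ≤ 2 * ((j * N : ℕ) : ℝ) := by positivity
    refine (mul_le_mul_of_nonneg_left h7 h8).trans ?_
    have h9 : 2 * ((j * N : ℕ) : ℝ) * (Real.exp (-(A / t)) / (s * t)) ≤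
        2 * ((j : ℝ) * (2 * Real.exp (k / t))) * (Real.exp (-(A / t)) / (s * t)) := by
      refine mul_le_mul_of_nonneg_right ?_ (by positivity)
      push_cast
      exact mul_le_mul_of_nonneg_left (mul_le_mul_of_nonneg_left hN2 (by linarith)) (by norm_num)
    refine h9.trans (le_trans (le_of_eq ?_) f3.le)
    have h10 : Real.exp (-((A - k) / t)) = Real.exp (k / t) * Real.exp (-(A / t)) := by
      rw [← Real.exp_add]
      congr 1
      ring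
    rw [h10, pow_one]
    field_simp
    ring
  · have hyc : c ≤ y ^ (j * K) := by
      have h2 : Real.exp (-(2 * (s * t))) ≤ y := by
        rw [hy, Real.exp_neg]
        have h3 := Real.add_one_le_exp (2 * (s * t))
        rw [inv_le_comm₀ (Real.exp_pos _) (by linarith)]
        refine le_trans ?_ h3
        rw [inv_le_iff_one_le_mul₀ (by linarith)]
        nlinarith
      have h3 : (Real.exp (-(2 * (s * t)))) ^ (j * K) ≤ y ^ (j * K) := pow_le_pow_left₀ (Real.exp_pos _).le h2 _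
      refine le_trans ?_ h3
      rw [hc, ← Real.exp_nat_mul, Real.exp_le_exp]
      push_cast
      have h4 : t * K ≤ j + 1 := by
        have h5 := mul_le_mul_of_nonneg_left hK1 ht0.le
        rw [mul_add, mul_div_cancel₀ _ ht0.ne', mul_one] at h5
        linarith
      have h6 : (j : ℝ) * K * -(2 * (s * t)) = -(2 * s * j * (t * K)) := by ring
      rw [h6, neg_le_neg_iff]
      exact mul_le_mul_of_nonneg_left h4 (by positivity)
    have hy0 : 0 ≤ y := by rw [hy]; linarith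
    have hy1 : y ≤ 1 := by rw [hy]; linarith
    have hyp : y ^ (j * K) ≤ 1 := pow_le_one₀ hy0 hy1
    have hyp0 : 0 ≤ y ^ (j * K) := pow_nonneg hy0 _
    have hb1 : b ≤ 1 := by
      rw [hb]
      exact Real.exp_le_one_iff.2 (by
        have h2 : 0 < 1 / t := by positivity
        linarith)
    have hq : w * b / 2 ≤ 1 := by nlinarith
    have hq0 : 0 < w * b / 2 := by positivity
    have hρ1 : (1 - w) * (w * b / 2) / 2 * y ^ (j * K) ≤ 1 := by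
      have h2 : (1 - w) * (w * b / 2) ≤ 1 * 1 := mul_le_mul (by linarith) hq hq0.le (by norm_num)
      have h3 : (1 - w) * (w * b / 2) / 2 * y ^ (j * K) ≤ 1 * 1 :=
        mul_le_mul (by linarith) hyp hyp0 (by norm_num)
      linarith
    have hρ2 : γ * c / 8 * (t ^ 2 * b) ≤ (1 - w) * (w * b / 2) / 2 * y ^ (j * K) := by
      have h2 : γ * c / 8 * (t ^ 2 * b) = 1 / 2 * (w * b / 2) / 2 * c := by
        rw [hw]
        ring
      rw [h2]
      refine mul_le_mul ?_ hyc hc0.le ?_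
      · have h3 : 1 / 2 * (w * b / 2) ≤ (1 - w) * (w * b / 2) := mul_le_mul_of_nonneg_right (by linarith) hq0.le
        linarith
      · have h3 : 0 ≤ (1 - w) * (w * b / 2) := mul_nonneg (by linarith) hq0.le
        linarith
    have h2 := CBP_pow hρ1 hρ2 hNK (by positivity) (by positivity)
    have h3 : (800000 : ℝ) ≤ γ * c / 8 * (t ^ 2 * b) * (Real.exp (k / t) / 2) := by
      have h4 : γ * c / 8 * (t ^ 2 * b) * (Real.exp (k / t) / 2) =
          γ * c / 16 / (Real.exp (-((k - 1) / t)) / t ^ 2) := by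
        have h5 : Real.exp (-((k - 1) / t)) = (b * Real.exp (k / t))⁻¹ := by
          rw [hb, ← Real.exp_add, ← Real.exp_neg]
          congr 1
          ring
        rw [h5]
        field_simp
        norm_num
      rw [h4, le_div_iff₀ (by positivity)]
      have h6 := f5.le
      rw [le_div_iff₀ (by norm_num)] at h6
      linarith
    have h7 : Real.exp (-(γ * c / 8 * (t ^ 2 * b) * (Real.exp (k / t) / 2))) ≤ 1 / 800000 := by
      rw [Real.exp_neg, one_div]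
      refine inv_anti₀ (by norm_num) ?_
      have h8 := Real.add_one_le_exp (γ * c / 8 * (t ^ 2 * b) * (Real.exp (k / t) / 2))
      linarith
    linarith


theorem params (γ : ℝ) (h0 : 0 < γ) (h1 : γ < Real.pi ^ 4 / 72) :
    ∃ α₀ : ℝ, 0 < α₀ ∧ α₀ < 1 ∧ ∀ α w y : ℝ, α₀ < α → α < 1 → w = γ / Real.log (1 - α) ^ 2 → y = 1 - √(2 * w) →
      0 < w ∧ 2 * w < 1 ∧ ∃ N K R : ℕ, 1 ≤ K ∧ 2 * K ≤ N ∧ 2 ≤ R ∧
        (∀ h : ℤ, 2 * ((R * N : ℕ) : ℝ) *
          ∏ m ∈ (Finset.Icc 1 (R * K)).filter (fun m : ℕ => ¬ (R : ℤ) ∣ h + m), (1 - y ^ m) ≤ 1 / 400000) ∧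
        2 * (1 - (1 - w) * (w * (1 - α) / 2) / 2 * y ^ (R * K)) ^ (N - K - 1) ≤ 1 / 400000 := by
  obtain ⟨t₀, ht₀, hmain⟩ := CBP_main γ h0 h1
  have hu0 : 0 < Real.exp (-(1 / t₀)) := Real.exp_pos _
  have hu1 : Real.exp (-(1 / t₀)) < 1 := by
    have h2 : 0 < 1 / t₀ := by positivity
    have h3 : Real.exp (-(1 / t₀)) < Real.exp 0 := Real.exp_lt_exp.2 (by linarith)
    rwa [Real.exp_zero] at h3
  refine ⟨1 - Real.exp (-(1 / t₀)), by linarith, by linarith, ?_⟩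
  intro α w y hα hα1 hw hy
  have hb0 : 0 < 1 - α := by linarith
  have hb1 : 1 - α < Real.exp (-(1 / t₀)) := by linarith
  have hL : Real.log (1 - α) < -(1 / t₀) := (Real.log_lt_iff_lt_exp hb0).2 hb1
  have hL0 : 0 < -Real.log (1 - α) := by
    have h2 : 0 < 1 / t₀ := by positivity
    linarith
  obtain ⟨t, ht⟩ : ∃ t : ℝ, t = 1 / (-Real.log (1 - α)) := ⟨_, rfl⟩
  have ht0 : 0 < t := by rw [ht]; positivity
  have htt : t < t₀ := by
    rw [ht, div_lt_iff₀ hL0]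
    have h2 : 1 / t₀ < -Real.log (1 - α) := by linarith
    rw [div_lt_iff₀ ht₀] at h2
    linarith
  have ht1 : 1 / t = -Real.log (1 - α) := by rw [ht, one_div_one_div]
  refine hmain t w y (1 - α) ht0 htt ?_ ?_ ?_
  · rw [hw, ht, div_pow, one_pow, neg_sq]
    ring
  · rw [hy, hw, ht]
    congr 1
    have h2 : 2 * (γ / Real.log (1 - α) ^ 2) = 2 * γ / (-Real.log (1 - α)) ^ 2 := by
      rw [neg_sq]
      ring
    rw [h2, Real.sqrt_div (by linarith), Real.sqrt_sq hL0.le]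
    ring
  · rw [ht1, neg_neg, Real.exp_log hb0]

end FDr.CB
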