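import Pool.Agent.Lib.MP_e029a2_pr.CB.Cyl
import Pool.Agent.Lib.MP_e029a2_pr.CB.Mass2
import Pool.Agent.Lib.MP_e029a2_pr.CO.Prod

/-!
# The finite-volume criterion implies recurrence
-/

set_option autoImplicit false

namespace FDr.CB

open MeasureTheory ProbabilityTheory
open scoped ENNReal

/-! ### The connections and the returns -/

theorem conn_meas (p : Par) (z : Site 1) (s : Bool) (x y : ℕ × ℕ) :
    MeasurableSet {c : Conf 1 | CO.Conn (Good p z s c) x y} :=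
  CO.conn_meas (fun c => Good p z s c) (fun x => good_meas p z s x) x y

/-- the growth cells of the quadrant -/
def T0 (p : Par) (z : Site 1) (s : Bool) : Set (Site 1 × ℕ) :=
  {q | ∃ (i : ℕ) (t : ℤ), q.1 = P z s i t ∧ Gw p t ∧ 0 ≤ t}

theorem conn_dep (p : Par) (z : Site 1) (s : Bool) (x y : ℕ × ℕ) :
    Dep (T0 p z s) fun c : Conf 1 => CO.Conn (Good p z s c) x y := by
  refine CO.conn_dep (fun c => Good p z s c) (fun x => ?_) x y
  refine (good_dep p z s x).mono ?_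
  rintro q ⟨t, h1, h2, h3, -⟩
  refine ⟨x.1, t, h1, h2, le_trans ?_ h3⟩
  positivity

theorem conn_prob (w α : Set.Ioo (0 : ℝ) 1) (p : Par) (h : FV w α p) (z : Site 1) (s : Bool) (x y : ℕ × ℕ) :
    1 / 2 ≤ Q w α 1 {c | CO.Conn (Good p z s c) x y} :=
  CO.perc (cellLaw w α 1) (fun x => cel p z s x) (fun c => Good p z s c) (fun x => good_meas p z s x)
    (fun x => good_dep p z s x) (fun _ _ hxy => cel_far p z s hxy) (fun x => h.good z s x) x y

theorem P_or (z : Site 1) (s : Bool) (i : ℕ) {t : ℤ} (ht : 0 ≤ t) : (P z s i t).2 ∈ CO.Or z.2 fun _ => s := by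
  refine ⟨fun _ => t.toNat, ?_⟩
  funext j
  have hj : j = 0 := Subsingleton.elim _ _
  show z.2 j + sg s * ((t.toNat : ℕ) : ℤ) = z.2 0 + sg s * t
  rw [hj, Int.toNat_of_nonneg ht]

theorem rf_nonneg (p : Par) (k : ℕ) : (0 : ℤ) ≤ (p.K : ℤ) + k * p.N := by positivity

theorem rf_not_gw (p : Par) (k : ℕ) : ¬ Gw p ((p.K : ℤ) + k * p.N) := by
  intro h
  refine h ?_
  have h1 : (p.R : ℤ) ∣ p.K := by exact_mod_cast p.RK
  have h2 : (p.R : ℤ) ∣ p.N := by exact_mod_cast p.RN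
  exact dvd_add h1 (Dvd.dvd.mul_left h2 _)

theorem N_pos (p : Par) : 1 ≤ p.N := by
  have h1 := p.K1
  have h2 := p.KN
  omega

theorem rf_inj (p : Par) {z : Site 1} {s : Bool} {i i' k k' : ℕ} (h : rf p z s i k = rf p z s i' k') :
    i = i' ∧ k = k' := by
  obtain ⟨h1, h2⟩ := P_inj h
  refine ⟨h1, ?_⟩
  have hN : (1 : ℤ) ≤ p.N := by exact_mod_cast N_pos p
  have h3 : (k : ℤ) * p.N = k' * p.N := by linarith
  have h4 : (k : ℤ) = k' := mul_right_cancel₀ (by linarith : (p.N : ℤ) ≠ 0) h3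
  exact_mod_cast h4

theorem RE_meas (p : Par) (z : Site 1) (s : Bool) (i : ℕ) : MeasurableSet {c : Conf 1 | RE p z s i c} := by
  have h1 : {c : Conf 1 | RE p z s i c} =
      ⋃ k : ℕ, {c : Conf 1 | CO.Conn (Good p z s c) (0, 0) (i, k)} ∩ {c | CO.Vs c (rf p z s i k)} := by
    ext c
    rw [Set.mem_iUnion]
    rfl
  rw [h1]
  exact MeasurableSet.iUnion fun k => (conn_meas p z s _ _).inter (CO.vs_meas _)

theorem RE_dep (p : Par) (z : Site 1) (s : Bool) (i : ℕ) :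
    Dep {q : Site 1 × ℕ | q.1.2 ∈ CO.Or z.2 fun _ => s} fun c : Conf 1 => RE p z s i c := by
  intro c c' hc
  have h1 : ∀ k, CO.Conn (Good p z s c) (0, 0) (i, k) = CO.Conn (Good p z s c') (0, 0) (i, k) := fun k =>
    conn_dep p z s (0, 0) (i, k) c c' fun q hq => hc q (by
      obtain ⟨i', t, h2, -, h3⟩ := hq
      show q.1.2 ∈ CO.Or z.2 fun _ => s
      rw [h2]
      exact P_or z s i' h3)
  have h2 : ∀ k, CO.Vs c (rf p z s i k) = CO.Vs c' (rf p z s i k) := fun k =>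
    CO.vs_dep (rf p z s i k) c c' fun q hq => hc q (by
      show q.1.2 ∈ CO.Or z.2 fun _ => s
      rw [show q.1 = rf p z s i k from hq]
      exact P_or z s i (rf_nonneg p k))
  show (∃ k, CO.Conn (Good p z s c) (0, 0) (i, k) ∧ CO.Vs c (rf p z s i k)) =
    ∃ k, CO.Conn (Good p z s c') (0, 0) (i, k) ∧ CO.Vs c' (rf p z s i k)
  simp only [h1, h2]

/-- **The core**: returns from every column far enough, with a probability bounded below. -/
theorem core (w α : Set.Ioo (0 : ℝ) 1) (p : Par) (h : FV w α p) : ∃ c1 : ℝ, 0 < c1 ∧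
    ∀ (z : Site 1) (s : Bool), ∃ i0 : ℕ, ∀ i, i0 ≤ i → ENNReal.ofReal c1 ≤ Q w α 1 {c | RE p z s i c} := by
  classical
  obtain ⟨cm, hcm, hmass⟩ := mass_sparse w α p.N (N_pos p)
  obtain ⟨g, hg⟩ : ∃ g, g = Gam w α 1 0 0 := ⟨_, rfl⟩
  have hgt : g ≠ ⊤ := hg ▸ CO.Gam_ne_top w α 0 0
  have hg1 : 1 ≤ g := hg ▸ CO.one_le_Gam w α 1
  have hgr : 1 ≤ g.toReal := by
    have := (ENNReal.toReal_le_toReal ENNReal.one_ne_top hgt).2 hg1
    simpa using this
  obtain ⟨s1, hs1⟩ : ∃ s1 : ℝ, s1 = cm / (2 * g.toReal) := ⟨_, rfl⟩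
  have hs1p : 0 < s1 := by
    rw [hs1]
    positivity
  obtain ⟨s2, hs2⟩ : ∃ s2 : ℝ, s2 = s1 / 2 := ⟨_, rfl⟩
  have hs2p : 0 < s2 := by
    rw [hs2]
    positivity
  refine ⟨s2 / (16 * (1 + s2)), by positivity, fun z s => ?_⟩
  obtain ⟨m0, hm0⟩ := hmass (fun _ => z.2 0 + sg s * p.K) s
  refine ⟨m0 + z.1.natAbs, fun i hi => ?_⟩
  obtain ⟨m, hm⟩ : ∃ m : ℕ, (m : ℤ) = i - z.1 := by
    refine ⟨((i : ℤ) - z.1).toNat, Int.toNat_of_nonneg ?_⟩
    have h1 := le_abs_self z.1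
    have h2 : ((m0 + z.1.natAbs : ℕ) : ℤ) ≤ i := by exact_mod_cast hi
    push_cast at h2
    have h3 := Int.natCast_nonneg m0
    linarith
  have hm1 : m0 ≤ m := by
    have h1 := le_abs_self z.1
    have h2 : ((m0 + z.1.natAbs : ℕ) : ℤ) ≤ i := by exact_mod_cast hi
    push_cast at h2
    have h3 : (m0 : ℤ) ≤ m := by linarith
    exact_mod_cast h3
  -- the sum of the probabilities of the returns
  have e1 : ENNReal.ofReal s1 = ENNReal.ofReal cm / (2 * g) := by
    rw [hs1, ENNReal.ofReal_div_of_pos (by positivity), ENNReal.ofReal_mul (by norm_num), ENNReal.ofReal_toReal hgt,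
      ENNReal.ofReal_ofNat]
  have hgg : ∀ k : ℕ, gg w α m (fun _ => z.2 0 + sg s * p.K) s (p.N * k) / (2 * g) ≤
      Q w α 1 {c | CO.Vs c (rf p z s i k)} := by
    intro k
    have h1 := CO.vs_prob w α 1 (rf p z s i k)
    rw [← hg] at h1
    have h2 : -(rf p z s i k).1 = m := by
      rw [hm]
      show -(z.1 - (i : ℤ)) = i - z.1
      ring
    have h3 : -(rf p z s i k).2 =
        -(CO.pt (fun _ => z.2 0 + sg s * (p.K : ℤ)) (fun _ => s) fun _ => p.N * k) := by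
      congr 1
      funext t
      show z.2 0 + sg s * ((p.K : ℤ) + k * p.N) = z.2 0 + sg s * (p.K : ℤ) + sg s * ((p.N * k : ℕ) : ℤ)
      push_cast
      ring
    rw [h2, h3] at h1
    exact h1
  have hsum : ENNReal.ofReal s1 ≤ ∑' k : ℕ, Q w α 1 {c | CO.Vs c (rf p z s i k)} := by
    calc ENNReal.ofReal s1 = ENNReal.ofReal cm / (2 * g) := e1
      _ ≤ (∑' k : ℕ, gg w α m (fun _ => z.2 0 + sg s * p.K) s (p.N * k)) / (2 * g) :=
        ENNReal.div_le_div_right (hm0 m hm1) _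
      _ = ∑' k : ℕ, gg w α m (fun _ => z.2 0 + sg s * p.K) s (p.N * k) / (2 * g) := by
        rw [ENNReal.div_eq_inv_mul, ← ENNReal.tsum_mul_left]
        exact tsum_congr fun u => by rw [ENNReal.div_eq_inv_mul]
      _ ≤ _ := ENNReal.tsum_le_tsum hgg
  have hlt : ENNReal.ofReal s2 < ∑' k : ℕ, Q w α 1 {c | CO.Vs c (rf p z s i k)} := by
    refine lt_of_lt_of_le ?_ hsum
    rw [ENNReal.ofReal_lt_ofReal_iff hs1p, hs2]
    linarith
  rw [ENNReal.tsum_eq_iSup_sum, lt_iSup_iff] at hlt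
  obtain ⟨U, hU⟩ := hlt
  have hbc := CO.bc (cellLaw w α 1) U (T0 p z s) (fun k => {q : Site 1 × ℕ | q.1 = rf p z s i k})
    (fun k c => CO.Conn (Good p z s c) (0, 0) (i, k)) (fun k c => CO.Vs c (rf p z s i k))
    (fun k _ => conn_meas p z s _ _) (fun k _ => conn_dep p z s _ _)
    (fun k _ => CO.vs_meas _) (fun k _ => CO.vs_dep _) ?_ ?_ ?_ hs2p hU.le
  · refine hbc.trans (measure_mono ?_)
    rintro c ⟨k, _, h1, h2⟩
    exact ⟨k, h1, h2⟩
  · intro k _
    rw [Set.disjoint_left]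
    rintro q ⟨i', t, h1, h2, _⟩ h3
    have h4 : P z s i' t = P z s i ((p.K : ℤ) + k * p.N) := h1.symm.trans h3
    rw [(P_inj h4).2] at h2
    exact rf_not_gw p k h2
  · intro k _ k' _ hkk
    rw [Set.disjoint_left]
    intro q h1 h2
    exact hkk (rf_inj p ((h1 : q.1 = _).symm.trans h2)).2
  · intro k _
    refine le_trans ?_ (conn_prob w α p h z s (0, 0) (i, k))
    rw [show (1 : ℝ≥0∞) / 2 = ENNReal.ofReal (1 / 2) by
      rw [ENNReal.ofReal_div_of_pos (by norm_num), ENNReal.ofReal_one, ENNReal.ofReal_ofNat]]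
    exact ENNReal.ofReal_le_ofReal (by norm_num)

/-! ### The start -/

theorem St_dep (p : Par) (s : Bool) (j : ℕ) : Dep {q : Site 1 × ℕ | q.1 = 0 ∧ j ≤ q.2} fun c : Conf 1 => St p s j c := by
  intro c c' hc
  have h1 : ∀ i, c (0, j + i) = c' (0, j + i) := fun i => hc (0, j + i) ⟨rfl, Nat.le_add_right j i⟩
  show (∀ i < 2 * p.K, c (0, j + i) = ([], (0, s))) = ∀ i < 2 * p.K, c' (0, j + i) = ([], (0, s))
  simp only [h1]

theorem St_meas (p : Par) (s : Bool) (j : ℕ) : MeasurableSet {c : Conf 1 | St p s j c} := by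
  refine measurableSet_setOfPred.2 ?_
  unfold St
  exact Measurable.forall fun i => Measurable.imp measurable_const (cell_meas _ _)

theorem St_prob (w α : Set.Ioo (0 : ℝ) 1) (p : Par) (s : Bool) (j : ℕ) :
    (runLaw w α {l | l = []} * 2⁻¹) ^ (2 * p.K) ≤ Q w α 1 {c | St p s j c} := by
  have h1 := CO.prod_dep (cellLaw w α 1) (Finset.range (2 * p.K)) (fun i => {((0 : Site 1), j + i)})
    (fun i _ => Set.finite_singleton _) (fun i _ i' _ h => by
      rw [Set.disjoint_singleton]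
      intro h2
      have h3 : j + i = j + i' := congrArg Prod.snd h2
      omega) (fun i (c : Conf 1) => c (0, j + i) = ([], (0, s))) (fun i _ c c' hc => by
      show (c (0, j + i) = ([], (0, s))) = (c' (0, j + i) = ([], (0, s)))
      rw [hc (0, j + i) rfl])
  have h2 : {c : Conf 1 | St p s j c} = {c : Conf 1 | ∀ i ∈ Finset.range (2 * p.K), c (0, j + i) = ([], (0, s))} := by
    ext c
    show (∀ i < 2 * p.K, c (0, j + i) = ([], (0, s))) ↔ _
    simp only [Finset.mem_range]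
    rfl
  have h3 : ∀ i, Q w α 1 {c | c (0, j + i) = ([], (0, s))} = runLaw w α {l | l = []} * 2⁻¹ := by
    intro i
    have h4 := CO.run_dir_prob (D := 1) w α ((0 : Site 1), j + i) (fun l => l = []) (0, s)
    have h5 : {c : Conf 1 | (c (0, j + i)).1 = [] ∧ (c (0, j + i)).2 = (0, s)} =
        {c : Conf 1 | c (0, j + i) = ([], (0, s))} := by
      ext c
      exact ⟨fun h => Prod.ext h.1 h.2, fun h => Prod.ext_iff.1 h⟩
    rw [h5] at h4
    rw [h4]
    simp
  rw [h2]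
  unfold Q at h3 ⊢
  rw [h1, Finset.prod_congr rfl fun i _ => h3 i, Finset.prod_const, Finset.card_range]

theorem nil_pos (w α : Set.Ioo (0 : ℝ) 1) : 0 < runLaw w α {l | l = []} := by
  have h1 : runLaw w α {l | l = []} = ENNReal.ofReal (runW w α []) := by
    have h2 : {l : Run | l = []} = {[]} := rfl
    rw [h2, runLaw, Measure.sum_apply _ (measurableSet_singleton _), tsum_eq_single []]
    · rw [Measure.smul_apply, Measure.dirac_apply_of_mem (Set.mem_singleton _), smul_eq_mul, mul_one]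
    · intro l hl
      rw [Measure.smul_apply, Measure.dirac_apply' _ (measurableSet_singleton _), Set.indicator_of_notMem, smul_zero]
      exact fun h => hl (Set.mem_singleton_iff.1 h)
  rw [h1]
  exact ENNReal.ofReal_pos.2 (runW_pos w.2 α.2 [])

/-- the geometry of the events -/
theorem io_inf (p : Par) {c : Conf 1} {j : ℕ} {z : Site 1} {s : Bool} (hz : ent c 0 j = z)
    (hr : St p s j c) (h : ∀ k : ℕ, ∃ n, k ≤ n ∧ RE p z s n c) : (visC c).Infinite := by
  have hK : ∀ k : ℕ, ∃ n, k ≤ n ∧ ∃ l : ℕ, ActC c (rf p z s n l) ∧ CO.Vs c (rf p z s n l) := by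
    intro k
    obtain ⟨n, hn, l, h1, h2⟩ := h k
    refine ⟨n, hn, l, ?_, h2⟩
    have h3 : Good p z s c (0, 0) := h1.left
    have h5 := ab_start p hz hr h3
    have h6 := ab_conn p h1 h5
    refine h6 _ ⟨le_rfl, ?_⟩
    show (p.K : ℤ) + l * p.N < (p.K : ℤ) + (l + 1) * p.N
    have hN : (1 : ℤ) ≤ p.N := by exact_mod_cast N_pos p
    have e1 : ((l : ℤ) + 1) * p.N = (l : ℤ) * p.N + p.N := by ring
    linarith
  intro hfin
  have h1 : ((fun q : Site 1 × ℕ × ℕ => q.1.1) '' visC c).Finite := hfin.image _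
  have h2 : {n : ℕ | ∃ l : ℕ, ActC c (rf p z s n l) ∧ CO.Vs c (rf p z s n l)}.Finite := by
    refine Set.Finite.of_finite_image (f := fun n : ℕ => z.1 - (n : ℤ)) (h1.subset ?_) ?_
    · rintro _ ⟨n, ⟨l, h3, i, h4⟩, rfl⟩
      refine ⟨(rf p z s n l, i, 0), ⟨h3, Nat.zero_le _, ?_⟩, rfl⟩
      show ent c (rf p z s n l) i + (dsp ((c (rf p z s n l, i)).1.take 0), 0) = 0
      rw [h4, List.take_zero]
      rfl
    · intro a _ b _ hab
      have h3 : z.1 - (a : ℤ) = z.1 - b := hab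
      omega
  obtain ⟨M, hM⟩ := h2.bddAbove
  obtain ⟨n, h3, h4⟩ := hK (M + 1)
  have h5 := hM h4
  omega

/-- **The finite-volume criterion implies recurrence.** -/
theorem fvc (w α : Set.Ioo (0 : ℝ) 1) (p : Par) (h : FV w α p) : Q w α 1 {c | (visC c).Infinite}ᶜ = 0 := by
  obtain ⟨c1, hc1, hcore⟩ := core w α p h
  have hsgn : ∀ z : Site 1, CO.sgn z.2 = fun _ => CO.sgn z.2 0 := by
    intro z
    funext i
    rw [Subsingleton.elim i 0]
  refine inf_of w α 1 (fun s j c => St p (s 0) j c) (fun z i c => RE p z (CO.sgn z.2 0) i c)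
    (fun s j => St_dep p (s 0) j) (fun s j => St_meas p (s 0) j) (cs := (runLaw w α {l | l = []} * 2⁻¹) ^ (2 * p.K)) ?_
    (fun s j => St_prob w α p (s 0) j) (fun z n => RE_meas p z _ n) (fun z n => ?_) (ENNReal.ofReal_pos.2 hc1)
    (fun z => hcore z _) (fun c j z h1 h2 h3 => io_inf p h1 h2 h3)
  · exact pos_of_ne_zero (pow_ne_zero _ (mul_ne_zero (nil_pos w α).ne' (by simp)))
  · have h1 := RE_dep p z (CO.sgn z.2 0) n
    rwa [← hsgn z] at h1

/-- the finite-volume criterion, for the frog model -/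
theorem fvc_recurrent {Ω : Type*} [MeasurableSpace Ω] (w α : Set.Ioo (0 : ℝ) 1) (p : Par)
    (h : FV w α p) (μ : Measure Ω) (ξ : Site 1 → ℕ → Ω → Stp 1) (hF : IsFrog 1 w α μ ξ) : Recurrent μ ξ :=
  transfer_inf w α 1 μ ξ hF (by
    have h1 := fvc w α p h
    exact h1)

end FDr.CB
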