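import Pool.Agent.Lib.MP_e029a2_pr.CB.GoodP
import Pool.Agent.Lib.MP_e029a2_pr.CB.Rec
import Pool.Agent.Lib.MP_e029a2_pr.CB.Params

/-!
# Dimension two, drift close to one: recurrence
-/

set_option autoImplicit false

namespace FDr.CB

open MeasureTheory ProbabilityTheory
open scoped ENNReal

/-- **Recurrence for `w ≤ γ / log² (1 - α)`, `γ < π⁴ / 72`, `α` close to one.** -/
theorem recurrent_b (γ : ℝ) (h0 : 0 < γ) (h1 : γ < Real.pi ^ 4 / 72) :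
    ∃ α₀ : ℝ, 0 < α₀ ∧ α₀ < 1 ∧ ∀ w α : Set.Ioo (0 : ℝ) 1, α₀ < (α : ℝ) → (w : ℝ) ≤ γ / Real.log (1 - (α : ℝ)) ^ 2 →
      ∀ {Ω : Type*} [MeasurableSpace Ω] (μ : Measure Ω) (ξ : Site 1 → ℕ → Ω → Stp 1), IsFrog 1 w α μ ξ →
        Recurrent μ ξ := by
  obtain ⟨α₀, ha0, ha1, h⟩ := params γ h0 h1
  refine ⟨α₀, ha0, ha1, fun w α hα hw Ω _ μ ξ hF => ?_⟩
  have hwp := w.2.1
  have hα1 := α.2.2
  have hα0 := α.2.1
  -- the parameter `β ≥ α` with `w = γ / log² (1 - β)`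
  obtain ⟨L, hL⟩ : ∃ L, L = √(γ / w) := ⟨_, rfl⟩
  have hL0 : 0 < L := by
    rw [hL]
    exact Real.sqrt_pos.2 (div_pos h0 hwp)
  have hL2 : L ^ 2 = γ / w := by
    rw [hL]
    exact Real.sq_sqrt (div_pos h0 hwp).le
  obtain ⟨β, hβ⟩ : ∃ β, β = 1 - Real.exp (-L) := ⟨_, rfl⟩
  have hlog : Real.log (1 - (α : ℝ)) < 0 := Real.log_neg (by linarith) (by linarith)
  have hle : -Real.log (1 - (α : ℝ)) ≤ L := by
    have h2 : Real.log (1 - (α : ℝ)) ^ 2 ≤ L ^ 2 := by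
      rw [hL2, le_div_iff₀ hwp]
      have h3 : 0 < Real.log (1 - (α : ℝ)) ^ 2 := by
        have := hlog.ne
        positivity
      have h4 := (le_div_iff₀ h3).1 hw
      linarith
    rw [← neg_sq (Real.log (1 - (α : ℝ)))] at h2
    exact le_of_sq_le_sq h2 hL0.le
  have hexp : Real.exp (-L) ≤ 1 - α := by
    have h2 := Real.exp_le_exp.2 (show -L ≤ Real.log (1 - (α : ℝ)) by linarith)
    rwa [Real.exp_log (by linarith)] at h2
  have hβα : (α : ℝ) ≤ β := by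
    rw [hβ]
    linarith
  have hβ1 : β < 1 := by
    rw [hβ]
    linarith [Real.exp_pos (-L)]
  have hwβ : (w : ℝ) = γ / Real.log (1 - β) ^ 2 := by
    have h2 : 1 - β = Real.exp (-L) := by
      rw [hβ]
      ring
    rw [h2, Real.log_exp, neg_sq, hL2]
    field_simp
  obtain ⟨hw0, hw1, N, K, R, hK, hN, hR, ha, hb⟩ := h β w (1 - √(2 * w)) (lt_of_lt_of_le hα hβα) hβ1 hwβ rfl
  have hs0 : 0 ≤ √(2 * (w : ℝ)) := Real.sqrt_nonneg _
  have hs2 : √(2 * (w : ℝ)) ^ 2 = 2 * w := Real.sq_sqrt (by linarith)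
  have hs1 : √(2 * (w : ℝ)) ≤ 1 := by
    have h2 := Real.sqrt_le_sqrt hw1.le
    rwa [Real.sqrt_one] at h2
  have hb' : 2 * (1 - (1 - (w : ℝ)) * (w * (1 - α) / 2) / 2 * (1 - √(2 * w)) ^ (R * K)) ^ (N - K - 1) ≤ 1 / 400000 := by
    refine le_trans ?_ hb
    have hy0 : 0 ≤ (1 - √(2 * (w : ℝ))) ^ (R * K) := pow_nonneg (by linarith) _
    have hy1 : (1 - √(2 * (w : ℝ))) ^ (R * K) ≤ 1 := pow_le_one₀ (by linarith) (by linarith)
    have h2 : (1 - (w : ℝ)) * (w * (1 - β) / 2) / 2 * (1 - √(2 * w)) ^ (R * K) ≤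
        (1 - (w : ℝ)) * (w * (1 - α) / 2) / 2 * (1 - √(2 * w)) ^ (R * K) := by
      refine mul_le_mul_of_nonneg_right ?_ hy0
      have h3 : 0 ≤ (1 - (w : ℝ)) * w := mul_nonneg (by linarith) hwp.le
      nlinarith [mul_le_mul_of_nonneg_left hβα h3]
    have h3 : (1 - (w : ℝ)) * (w * (1 - α) / 2) / 2 * (1 - √(2 * w)) ^ (R * K) ≤ 1 := by
      have h4 : (1 - (w : ℝ)) * (w * (1 - α) / 2) / 2 ≤ 1 := by
        have h5 : (1 - (w : ℝ)) * w ≤ 1 := by nlinarith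
        have h6 : 0 ≤ (1 - (w : ℝ)) * w := mul_nonneg (by linarith) hwp.le
        have h7 : (1 - (w : ℝ)) * w * (1 - α) ≤ 1 * 1 := mul_le_mul h5 (by linarith) (by linarith) (by norm_num)
        linarith
      calc _ ≤ 1 * 1 := mul_le_mul h4 hy1 hy0 (by norm_num)
        _ = 1 := one_mul 1
    refine mul_le_mul_of_nonneg_left (pow_le_pow_left₀ (by linarith) (by linarith) _) (by norm_num)
  refine fvc_recurrent w α _ (fv_of w α (y := 1 - √(2 * w)) (by linarith) (by linarith) ?_ hK hN hR ha hb') μ ξ hF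
  obtain ⟨η, hη⟩ : ∃ η : ℝ, η = √(2 * (w : ℝ)) := ⟨_, rfl⟩
  rw [← hη] at hs0 hs1 hs2 ⊢
  have h2 : (w : ℝ) = η ^ 2 / 2 := by linarith
  rw [h2]
  nlinarith [mul_nonneg (mul_nonneg hs0 hs0) (mul_nonneg hs0 (by linarith : 0 ≤ 1 - η / 2))]

end FDr.CB
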