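import Mathlib

/-!
# The parameters for the corner `α → 1` in dimension two, transient side (only Mathlib)

`L = -log (1 - α) → ∞`, `w = γ / L²`, `ε = √(2w) = √(2γ)/L`, `r = 1 - ε + ε² = 1 - ε (1 - ε)`, `φ k = ∏_{j=1}^k (1 - r^j)`.
(1) `-log (φ k) ≤ (π²/6) r/(1-r) ≤ (π²/6) / (ε (1-ε)) = (π²/6) (1/ε + 1/(1-ε)) ≤ (π²/6)/ε + 4` for `ε ≤ 1/2`
(proof of the first inequality as in the job TPhi of CO: `-log (1 - r^j) = ∑_{i≥1} r^(j i)/i`, `∑_j r^(j i) ≤ r^i/(1-r^i) ≤ r/(i (1-r))`).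
So `φ k ≥ exp (-(κ L + 4))` for all `k`, `κ = π²/(6 √(2γ)) < 1`.
(2) `k = ⌈L³⌉`: `r^(k+1)/(1-r) ≤ (2/ε) exp (-k ε/2) ≤ φ k / 2` for large `L` (`k ε / 2 ≥ c L²`).
(3) `8 (1-α) (1 + 2 (3 + 8 k/φ k + 2/(1-r))) ≤ C exp (-L) L³ exp (κ L + 4) → 0`.
-/

set_option autoImplicit false

namespace FDr.CB

private theorem TPar_geom {q : ℝ} (h0 : 0 < q) (h1 : q < 1) (n : ℕ) :
    ∑ k ∈ Finset.range n, q ^ (k + 1) ≤ q / (1 - q) := by
  have h2 : 0 < 1 - q := by linarith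
  rw [le_div_iff₀ h2]
  have h3 : ∑ k ∈ Finset.range n, q ^ (k + 1) = q * ∑ k ∈ Finset.range n, q ^ k := by
    rw [Finset.mul_sum]
    exact Finset.sum_congr rfl fun k _ => by rw [pow_succ, mul_comm]
  have h4 : (1 - q) * ∑ k ∈ Finset.range n, q ^ k = 1 - q ^ n := mul_neg_geom_sum q n
  have h5 : 0 ≤ q * q ^ n := by positivity
  calc (∑ k ∈ Finset.range n, q ^ (k + 1)) * (1 - q) = q * ((1 - q) * ∑ k ∈ Finset.range n, q ^ k) := by
        rw [h3]
        ring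
    _ = q - q * q ^ n := by
        rw [h4]
        ring
    _ ≤ q := by linarith

private theorem TPar_frac {l : ℝ} (h0 : 0 < l) (h1 : l < 1) (i : ℕ) :
    l ^ (i + 1) / (1 - l ^ (i + 1)) ≤ l / (1 - l) * (1 / ((i : ℝ) + 1)) := by
  have h2 : 0 < 1 - l := by linarith
  have h3 : 0 < 1 - l ^ (i + 1) := by
    have : l ^ (i + 1) < 1 := pow_lt_one₀ h0.le h1 (Nat.succ_ne_zero i)
    linarith
  have h4 : (1 - l) * ∑ j ∈ Finset.range (i + 1), l ^ j = 1 - l ^ (i + 1) := mul_neg_geom_sum l (i + 1)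
  have h5 : ((i : ℝ) + 1) * l ^ i ≤ ∑ j ∈ Finset.range (i + 1), l ^ j := by
    have h6 : ∑ j ∈ Finset.range (i + 1), l ^ i ≤ ∑ j ∈ Finset.range (i + 1), l ^ j := by
      refine Finset.sum_le_sum fun j hj => ?_
      exact pow_le_pow_of_le_one h0.le h1.le (by
        have := Finset.mem_range.1 hj
        omega)
    rw [Finset.sum_const, Finset.card_range, nsmul_eq_mul] at h6
    push_cast at h6
    exact h6
  have h7 : ((i : ℝ) + 1) * l ^ i * (1 - l) ≤ 1 - l ^ (i + 1) := by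
    rw [← h4, mul_comm (1 - l)]
    exact mul_le_mul_of_nonneg_right h5 h2.le
  rw [div_mul_div_comm, mul_one, div_le_div_iff₀ h3 (by positivity)]
  calc l ^ (i + 1) * ((1 - l) * ((i : ℝ) + 1)) = l * (((i : ℝ) + 1) * l ^ i * (1 - l)) := by
        rw [pow_succ]
        ring
    _ ≤ l * (1 - l ^ (i + 1)) := mul_le_mul_of_nonneg_left h7 h0.le

private theorem TPar_log {l : ℝ} (h0 : 0 < l) (h1 : l < 1) (n : ℕ) :
    ∑ k ∈ Finset.range n, -Real.log (1 - l ^ (k + 1)) ≤ l / (1 - l) * (Real.pi ^ 2 / 6) := by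
  have hk : ∀ k : ℕ, HasSum (fun i : ℕ => (l ^ (k + 1)) ^ (i + 1) / ((i : ℝ) + 1)) (-Real.log (1 - l ^ (k + 1))) := by
    intro k
    have h2 := pow_lt_one₀ h0.le h1 (Nat.succ_ne_zero k)
    refine Real.hasSum_pow_div_log_of_abs_lt_one ?_
    rw [abs_of_pos (pow_pos h0 _)]
    exact h2
  have hS : HasSum (fun i : ℕ => ∑ k ∈ Finset.range n, (l ^ (k + 1)) ^ (i + 1) / ((i : ℝ) + 1))
      (∑ k ∈ Finset.range n, -Real.log (1 - l ^ (k + 1))) := hasSum_sum fun k _ => hk k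
  have hz : HasSum (fun i : ℕ => 1 / ((i : ℝ) + 1) ^ 2) (Real.pi ^ 2 / 6) := by
    have h2 := (hasSum_nat_add_iff' 1).2 hasSum_zeta_two
    simp only [Finset.sum_range_one, Nat.cast_zero, Nat.cast_add, Nat.cast_one] at h2
    have h3 : (1 : ℝ) / 0 ^ 2 = 0 := by norm_num
    rw [h3, sub_zero] at h2
    exact h2
  refine hasSum_le ?_ hS (hz.mul_left (l / (1 - l)))
  intro i
  have hq0 : 0 < l ^ (i + 1) := pow_pos h0 _
  have hq1 : l ^ (i + 1) < 1 := pow_lt_one₀ h0.le h1 (Nat.succ_ne_zero i)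
  have h2 : ∑ k ∈ Finset.range n, (l ^ (k + 1)) ^ (i + 1) / ((i : ℝ) + 1) =
      (∑ k ∈ Finset.range n, (l ^ (i + 1)) ^ (k + 1)) / ((i : ℝ) + 1) := by
    rw [Finset.sum_div]
    exact Finset.sum_congr rfl fun k _ => by rw [← pow_mul, ← pow_mul, mul_comm (k + 1)]
  rw [h2]
  have h3 := (TPar_geom hq0 hq1 n).trans (TPar_frac h0 h1 i)
  have h4 : (0 : ℝ) < (i : ℝ) + 1 := by positivity
  calc (∑ k ∈ Finset.range n, (l ^ (i + 1)) ^ (k + 1)) / ((i : ℝ) + 1)
      ≤ (l / (1 - l) * (1 / ((i : ℝ) + 1))) / ((i : ℝ) + 1) := div_le_div_of_nonneg_right h3 h4.le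
    _ = l / (1 - l) * (1 / ((i : ℝ) + 1) ^ 2) := by
        rw [pow_two, mul_div_assoc, div_div]

private theorem TPar_prod (r : ℝ) (k : ℕ) :
    ∏ j ∈ Finset.Icc 1 k, (1 - r ^ j) = ∏ j ∈ Finset.range k, (1 - r ^ (j + 1)) := by
  induction k with
  | zero => simp
  | succ k ih => rw [Finset.prod_Icc_succ_top (by omega), ih, Finset.prod_range_succ]

private theorem TPar_phi {r : ℝ} (h0 : 0 < r) (h1 : r < 1) (k : ℕ) :
    Real.exp (-(r / (1 - r) * (Real.pi ^ 2 / 6))) ≤ ∏ j ∈ Finset.Icc 1 k, (1 - r ^ j) := by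
  rw [TPar_prod]
  have h2 := TPar_log h0 h1 k
  rw [Finset.sum_neg_distrib] at h2
  have h4 : ∏ j ∈ Finset.range k, (1 - r ^ (j + 1)) =
      Real.exp (∑ j ∈ Finset.range k, Real.log (1 - r ^ (j + 1))) := by
    rw [Real.exp_sum]
    refine Finset.prod_congr rfl fun j _ => ?_
    rw [Real.exp_log]
    have : r ^ (j + 1) < 1 := pow_lt_one₀ h0.le h1 (Nat.succ_ne_zero j)
    linarith
  rw [h4]
  refine Real.exp_le_exp.2 ?_
  linarith

private theorem TPar_pi : Real.pi ^ 2 / 6 ≤ 2 := by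
  have h1 := Real.pi_lt_d2
  have h2 := Real.pi_pos
  nlinarith

private theorem TPar_pi1 : 1 ≤ Real.pi ^ 2 / 6 := by
  have h1 := Real.pi_gt_three
  nlinarith

private theorem TPar_main {c L e r : ℝ} (hc : Real.pi ^ 2 / 6 < c) (hL : 11 ≤ L) (he : e = c / L)
    (hr : r = 1 - e + e ^ 2) (he2 : e ≤ 1 / 2)
    (hbig : 376 * Real.exp 4 * 24 / (1 - Real.pi ^ 2 / 6 / c) ^ 4 < L) :
    0 < r ∧ r < 1 ∧ ∃ k : ℕ,
        r ^ (k + 1) / (1 - r) ≤ (∏ j ∈ Finset.Icc 1 k, (1 - r ^ j)) / 2 ∧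
        8 * Real.exp (-L) * (1 + 2 * (3 + 8 * k / (∏ j ∈ Finset.Icc 1 k, (1 - r ^ j)) + 2 / (1 - r))) < 1 := by
  have hP1 := TPar_pi1
  have hP2 := TPar_pi
  have hc1 : 1 ≤ c := hP1.trans hc.le
  have hc0 : 0 < c := by linarith
  have hL0 : 0 < L := by linarith
  have he0 : 0 < e := by rw [he]; positivity
  have h1r : 1 - r = e * (1 - e) := by rw [hr]; ring
  have h1r2 : e / 2 ≤ 1 - r := by rw [h1r]; nlinarith
  have h1r0 : 0 < 1 - r := by linarith
  have hr0 : 0 < r := by rw [hr]; nlinarith [sq_nonneg e]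
  have hr1 : r < 1 := by linarith
  have hinv : 1 / (1 - r) ≤ 2 * L := by
    have h2 : 1 / (1 - r) ≤ 1 / (e / 2) := one_div_le_one_div_of_le (by positivity) h1r2
    have h3 : 1 / (e / 2) = 2 * L / c := by
      rw [he]
      field_simp
    have h4 : 2 * L / c ≤ 2 * L := div_le_self (by positivity) hc1
    linarith
  have hκ : r / (1 - r) * (Real.pi ^ 2 / 6) ≤ Real.pi ^ 2 / 6 / c * L + 4 := by
    have h2 : r / (1 - r) = 1 / e + 1 / (1 - e) - 1 := by
      have h3 : (1 : ℝ) - e ≠ 0 := by linarith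
      have h4 : e ≠ 0 := he0.ne'
      have h5 : r = 1 - e * (1 - e) := by linarith
      rw [h1r, h5]
      field_simp
      ring
    have h3 : 1 / (1 - e) ≤ 2 := by
      rw [div_le_iff₀ (by linarith)]
      linarith
    have h4 : r / (1 - r) ≤ 1 / e + 1 := by linarith
    have h5 : 1 / e = L / c := by
      rw [he]
      field_simp
    have h6 : Real.pi ^ 2 / 6 / c * L = L / c * (Real.pi ^ 2 / 6) := by ring
    rw [h6, ← h5]
    have h7 := mul_le_mul_of_nonneg_right h4 (by linarith : (0 : ℝ) ≤ Real.pi ^ 2 / 6)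
    linarith
  set κ : ℝ := Real.pi ^ 2 / 6 / c with hκd
  have hκ0 : 0 < κ := by positivity
  have hκ1 : κ < 1 := by
    rw [hκd, div_lt_one hc0]
    exact hc
  set k : ℕ := ⌈L ^ 3⌉₊ with hk
  have hL3 : 1 ≤ L ^ 3 := one_le_pow₀ (by linarith)
  have hk1 : L ^ 3 ≤ (k : ℝ) := Nat.le_ceil _
  have hk2 : (k : ℝ) ≤ 2 * L ^ 3 := by
    have := Nat.ceil_lt_add_one (by positivity : (0 : ℝ) ≤ L ^ 3)
    linarith
  set φ : ℝ := ∏ j ∈ Finset.Icc 1 k, (1 - r ^ j) with hφ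
  have hφ1 : Real.exp (-(κ * L + 4)) ≤ φ := by
    refine le_trans (Real.exp_le_exp.2 ?_) (TPar_phi hr0 hr1 k)
    linarith
  have hφ0 : 0 < φ := lt_of_lt_of_le (Real.exp_pos _) hφ1
  refine ⟨hr0, hr1, k, ?_, ?_⟩
  · have h2 : r ^ (k + 1) ≤ Real.exp (-(c * L ^ 2 / 2)) := by
      have h3 : r ≤ Real.exp (-(1 - r)) := by
        have := Real.add_one_le_exp (-(1 - r))
        linarith
      have h4 : r ^ (k + 1) ≤ Real.exp (-(1 - r)) ^ (k + 1) := pow_le_pow_left₀ hr0.le h3 _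
      have h5 : Real.exp (-(1 - r)) ^ (k + 1) = Real.exp (((k + 1 : ℕ) : ℝ) * (-(1 - r))) := by
        rw [Real.exp_nat_mul]
      rw [h5] at h4
      refine h4.trans (Real.exp_le_exp.2 ?_)
      push_cast
      have h6 : c * L ^ 2 / 2 = L ^ 3 * (e / 2) := by
        rw [he]
        field_simp
      rw [h6]
      have h7 : L ^ 3 * (e / 2) ≤ ((k : ℝ) + 1) * (1 - r) :=
        mul_le_mul (by linarith) h1r2 (by positivity) (by positivity)
      linarith
    have h3 : r ^ (k + 1) / (1 - r) ≤ Real.exp (-(c * L ^ 2 / 2)) * (2 * L) := by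
      rw [div_eq_mul_one_div]
      exact mul_le_mul h2 hinv (by positivity) (Real.exp_pos _).le
    have h4 : Real.exp (-(c * L ^ 2 / 2)) * (4 * L) ≤ Real.exp (-(κ * L + 4)) := by
      have h5 : 4 * L ≤ Real.exp (4 * L) := by
        have := Real.add_one_le_exp (4 * L)
        linarith
      have h6 : Real.exp (-(c * L ^ 2 / 2)) * (4 * L) ≤
          Real.exp (-(c * L ^ 2 / 2)) * Real.exp (4 * L) :=
        mul_le_mul_of_nonneg_left h5 (Real.exp_pos _).le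
      rw [← Real.exp_add] at h6
      refine h6.trans (Real.exp_le_exp.2 ?_)
      have h7 : κ * L ≤ L := by nlinarith
      have h8 : 11 * L ≤ c * L ^ 2 := by nlinarith
      linarith
    linarith
  · set X : ℝ := Real.exp (κ * L + 4) with hX
    have hX1 : 1 ≤ X := Real.one_le_exp (by positivity)
    have hX0 : 0 < X := by linarith
    have h2 : 1 / φ ≤ X := by
      rw [div_le_iff₀ hφ0]
      have h3 : X * Real.exp (-(κ * L + 4)) = 1 := by
        rw [hX, ← Real.exp_add]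
        simp
      have h4 := mul_le_mul_of_nonneg_left hφ1 hX0.le
      linarith
    have h3 : 8 * (k : ℝ) / φ ≤ 16 * L ^ 3 * X := by
      rw [div_eq_mul_one_div]
      exact mul_le_mul (by linarith) h2 (by positivity) (by positivity)
    have h4 : 2 / (1 - r) ≤ 4 * L := by
      have : 2 / (1 - r) = 2 * (1 / (1 - r)) := by ring
      linarith
    have h5 : L ≤ L ^ 3 := by nlinarith [sq_nonneg L]
    have h6 : L ^ 3 ≤ L ^ 3 * X := le_mul_of_one_le_right (by positivity) hX1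
    have h7 : 1 + 2 * (3 + 8 * (k : ℝ) / φ + 2 / (1 - r)) ≤ 47 * (L ^ 3 * X) := by linarith
    have h8 : 8 * Real.exp (-L) * (1 + 2 * (3 + 8 * (k : ℝ) / φ + 2 / (1 - r))) ≤
        8 * Real.exp (-L) * (47 * (L ^ 3 * X)) :=
      mul_le_mul_of_nonneg_left h7 (by positivity)
    refine lt_of_le_of_lt h8 ?_
    have hd : 0 < 1 - κ := by linarith
    have h9 : ((1 - κ) * L) ^ 4 / 24 ≤ Real.exp ((1 - κ) * L) := by
      have := Real.pow_div_factorial_le_exp ((1 - κ) * L) (by positivity) 4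
      have h10 : ((Nat.factorial 4 : ℕ) : ℝ) = 24 := by norm_num [Nat.factorial]
      rw [h10] at this
      exact this
    have h10 : Real.exp (-L) * X * Real.exp ((1 - κ) * L) = Real.exp 4 := by
      rw [hX, ← Real.exp_add, ← Real.exp_add]
      congr 1
      ring
    have h11 : 376 * Real.exp 4 * 24 < L * (1 - κ) ^ 4 := by
      rwa [div_lt_iff₀ (by positivity)] at hbig
    have h12 : 376 * L ^ 3 * Real.exp 4 < Real.exp ((1 - κ) * L) := by
      refine lt_of_lt_of_le ?_ h9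
      rw [lt_div_iff₀ (by norm_num)]
      have h13 : ((1 - κ) * L) ^ 4 = L ^ 3 * (L * (1 - κ) ^ 4) := by ring
      rw [h13]
      have h14 := mul_lt_mul_of_pos_left h11 (by positivity : (0 : ℝ) < L ^ 3)
      linarith
    have h15 : 8 * Real.exp (-L) * (47 * (L ^ 3 * X)) = 376 * L ^ 3 * (Real.exp (-L) * X) := by ring
    rw [h15]
    have h16 : 376 * L ^ 3 * (Real.exp (-L) * X) * Real.exp ((1 - κ) * L) <
        1 * Real.exp ((1 - κ) * L) := by
      rw [mul_assoc, h10, one_mul]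
      exact h12
    exact lt_of_mul_lt_mul_right h16 (Real.exp_pos _).le

theorem tpar (γ : ℝ) (h1 : Real.pi ^ 4 / 72 < γ) :
    ∃ α₀ : ℝ, 0 < α₀ ∧ α₀ < 1 ∧ ∀ α w r : ℝ, α₀ < α → α < 1 → w = γ / Real.log (1 - α) ^ 2 →
      r = 1 - √(2 * w) + 2 * w →
      0 < w ∧ 2 * w < 1 ∧ 0 < r ∧ r < 1 ∧ ∃ k : ℕ,
        r ^ (k + 1) / (1 - r) ≤ (∏ j ∈ Finset.Icc 1 k, (1 - r ^ j)) / 2 ∧
        8 * (1 - α) * (1 + 2 * (3 + 8 * k / (∏ j ∈ Finset.Icc 1 k, (1 - r ^ j)) + 2 / (1 - r))) < 1 := by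
  have hpi := Real.pi_pos
  have hγ : 0 < γ := lt_trans (by positivity) h1
  set c : ℝ := √(2 * γ) with hcd
  have hc2 : c ^ 2 = 2 * γ := Real.sq_sqrt (by positivity)
  have hc0 : 0 < c := Real.sqrt_pos.2 (by positivity)
  have hc : Real.pi ^ 2 / 6 < c := by
    refine Real.lt_sqrt_of_sq_lt ?_
    have : (Real.pi ^ 2 / 6) ^ 2 = 2 * (Real.pi ^ 4 / 72) := by ring
    rw [this]
    linarith
  set K : ℝ := 376 * Real.exp 4 * 24 / (1 - Real.pi ^ 2 / 6 / c) ^ 4 with hK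
  set M : ℝ := max (max 11 K) (2 * c) with hM
  have hM1 : 11 ≤ M := (le_max_left _ _).trans (le_max_left _ _)
  have hM2 : K ≤ M := (le_max_right _ _).trans (le_max_left _ _)
  have hM3 : 2 * c ≤ M := le_max_right _ _
  refine ⟨1 - Real.exp (-M), ?_, ?_, ?_⟩
  · have : Real.exp (-M) < Real.exp 0 := Real.exp_lt_exp.2 (by linarith)
    rw [Real.exp_zero] at this
    linarith
  · have := Real.exp_pos (-M)
    linarith
  intro α w r hα hα1 hw hr
  have h1α : 0 < 1 - α := by linarith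
  set L : ℝ := -Real.log (1 - α) with hLd
  have hexp : 1 - α = Real.exp (-L) := by
    rw [hLd, neg_neg, Real.exp_log h1α]
  have hLM : M < L := by
    have h2 : Real.exp (-L) < Real.exp (-M) := by
      rw [← hexp]
      linarith
    have := Real.exp_lt_exp.1 h2
    linarith
  have hL0 : 0 < L := by linarith
  have hw2 : 2 * w = (c / L) ^ 2 := by
    have h2 : Real.log (1 - α) ^ 2 = L ^ 2 := by
      rw [hLd]
      ring
    rw [hw, h2, div_pow, hc2]
    ring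
  have hsq : √(2 * w) = c / L := by
    rw [hw2, Real.sqrt_sq (by positivity)]
  have he2 : c / L ≤ 1 / 2 := by
    rw [div_le_iff₀ hL0]
    linarith
  have he0 : 0 < c / L := by positivity
  have hrr : r = 1 - c / L + (c / L) ^ 2 := by
    rw [hr, hsq, hw2]
  obtain ⟨h2, h3, k, h4, h5⟩ := TPar_main hc (by linarith : (11 : ℝ) ≤ L) rfl hrr he2
    (lt_of_le_of_lt hM2 hLM)
  refine ⟨?_, ?_, h2, h3, k, h4, ?_⟩
  · have : 0 < (c / L) ^ 2 := by positivity
    linarith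
  · rw [hw2]
    nlinarith
  · rw [hexp]
    exact h5

end FDr.CB
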