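import Pool.Agent.Lib.MP_e029a2_pr.M.UE
import Pool.Agent.Lib.MP_e029a2_pr.M.TG
import Pool.Agent.Lib.MP_e029a2_pr.M.Bij
import Pool.Agent.Lib.MP_e029a2_pr.CB.TPar

/-!
# Dimension two, drift close to one: transience
-/

set_option autoImplicit false

namespace FDr.CB

open MeasureTheory ProbabilityTheory
open scoped ENNReal

/-- **Transience for `w ≥ γ / log² (1 - α)`, `γ > π⁴ / 72`, `α` close to one.** -/
theorem transient_b (γ : ℝ) (h1 : Real.pi ^ 4 / 72 < γ) :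
    ∃ α₀ : ℝ, 0 < α₀ ∧ α₀ < 1 ∧ ∀ w α : Set.Ioo (0 : ℝ) 1, α₀ < (α : ℝ) → γ / Real.log (1 - (α : ℝ)) ^ 2 ≤ (w : ℝ) →
      ∀ {Ω : Type*} [MeasurableSpace Ω] (μ : Measure Ω) (ξ : Site 1 → ℕ → Ω → Stp 1), IsFrog 1 w α μ ξ →
        ∀ᵐ ω ∂μ, (visits fun x n => ξ x n ω).Finite := by
  obtain ⟨α₀, ha0, ha1, h⟩ := tpar γ h1
  refine ⟨α₀, ha0, ha1, fun w α hα hw Ω _ μ ξ hF => ?_⟩
  obtain ⟨w0, hw0⟩ : ∃ w0, w0 = γ / Real.log (1 - (α : ℝ)) ^ 2 := ⟨_, rfl⟩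
  rw [← hw0] at hw
  obtain ⟨h2, h3, h4, h5, k, h6, h7⟩ := h α w0 (1 - √(2 * w0) + 2 * w0) hα α.2.2 hw0 rfl
  obtain ⟨e, he⟩ : ∃ e : ℝ, e = √(2 * w0) := ⟨_, rfl⟩
  have he0 : 0 ≤ e := by
    rw [he]
    exact Real.sqrt_nonneg _
  have he2 : e ^ 2 = 2 * w0 := by
    rw [he]
    exact Real.sq_sqrt (by linarith)
  have he1 : e ≤ 1 := by
    rw [he]
    have h8 := Real.sqrt_le_sqrt h3.le
    rwa [Real.sqrt_one] at h8
  rw [← he] at h4 h5 h6 h7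
  obtain ⟨r, hr⟩ : ∃ r : ℝ, r = 1 - e + 2 * w0 := ⟨_, rfl⟩
  rw [← hr] at h4 h5 h6 h7
  have hr2 : (1 - (w : ℝ)) / 2 * (1 + r ^ 2) ≤ r := by
    have h8 : 1 - r = e * (1 - e) := by
      rw [hr, ← he2]
      ring
    have h9 : 1 - e ≤ r := by
      rw [hr]
      linarith
    have h10 : (1 - e) ^ 2 ≤ r ^ 2 := pow_le_pow_left₀ (by linarith) h9 2
    have h11 : (1 - e) ^ 2 ≤ 1 := pow_le_one₀ (by linarith) (by linarith)
    have h12 : (1 - r) ^ 2 ≤ w0 * (1 + r ^ 2) := by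
      rw [h8]
      have h13 : (e * (1 - e)) ^ 2 = 2 * w0 * (1 - e) ^ 2 := by
        rw [← he2]
        ring
      rw [h13]
      nlinarith
    have h14 : w0 * (1 + r ^ 2) ≤ w * (1 + r ^ 2) := mul_le_mul_of_nonneg_right hw (by positivity)
    nlinarith
  exact M.transfer_finM w α 1 μ ξ hF (MT.trans w α 1 (s := 1 / 10) (by norm_num) (MT.mfun_lt w α h4 h5 hr2 h6 h7))

end FDr.CB
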